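import Mathlib

set_option autoImplicit false
open Filter Topology Set

namespace Pool.Helper62.HN

/-- the Henon map with `B = -b` -/
def h (c B : ℝ) (p : ℝ × ℝ) : ℝ × ℝ := (p.1 ^ 2 + c + B * p.2, p.1)

/-- topological recurrence -/
def Rec (f : ℝ × ℝ → ℝ × ℝ) (z : ℝ × ℝ) : Prop :=
  ∀ U ∈ 𝓝 z, ∃ᶠ n in atTop, f^[n] z ∈ U

lemma h_cont (c B : ℝ) : Continuous (h c B) := by
  unfold h; fun_prop

lemma Rec.map {f : ℝ × ℝ → ℝ × ℝ} (hf : Continuous f) {z : ℝ × ℝ} (hz : Rec f z) : Rec f (f z) := by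
  intro U hU
  have := hz (f ⁻¹' U) (hf.continuousAt.preimage_mem_nhds hU)
  refine this.mono fun n hn => ?_
  simp only [mem_preimage] at hn
  rwa [← Function.iterate_succ_apply' f n z, Function.iterate_succ_apply] at hn

lemma Rec.iter {f : ℝ × ℝ → ℝ × ℝ} (hf : Continuous f) {z : ℝ × ℝ} (hz : Rec f z) (n : ℕ) :
    Rec f (f^[n] z) := by
  induction n with
  | zero => simpa using hz
  | succ n ih => rw [Function.iterate_succ_apply']; exact ih.map hf

/-- a continuous function which is monotone along the orbit is constant along it -/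
lemma Rec.const {f : ℝ × ℝ → ℝ × ℝ} (hf : Continuous f) {z : ℝ × ℝ} (hz : Rec f z)
    {V : ℝ × ℝ → ℝ} (hV : Continuous V) (hm : ∀ n, V (f^[n] z) ≤ V (f^[n+1] z)) (n : ℕ) :
    V (f^[n+1] z) = V (f^[n] z) := by
  have hmono : Monotone fun n => V (f^[n] z) := monotone_nat_of_le_succ hm
  refine le_antisymm ?_ (hm n)
  by_contra hlt
  push Not at hlt
  have hr := (hz.iter hf n) {w | V w < V (f^[n+1] z)}
    ((isOpen_lt hV continuous_const).mem_nhds hlt)
  obtain ⟨m, hm1, hm2⟩ := (hr.and_eventually (eventually_ge_atTop 1)).exists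
  simp only [mem_ofPred_eq, ← Function.iterate_add_apply] at hm1
  have := hmono (show n + 1 ≤ m + n by omega)
  simp only at this
  linarith

/-- if the orbit of a recurrent point has its values of a continuous function tending to a limit,
then the function equals the limit -/
lemma Rec.lim {f : ℝ × ℝ → ℝ × ℝ} {z : ℝ × ℝ} (hz : Rec f z)
    {V : ℝ × ℝ → ℝ} (hV : Continuous V) {a : ℝ} (hl : Tendsto (fun n => V (f^[n] z)) atTop (𝓝 a)) :
    V z = a := by
  by_contra hne
  have hne' : V z ≠ a := hne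
  obtain ⟨U, W, hU, hW, hzU, haW, hd⟩ := t2_separation hne'
  have h1 := hz (V ⁻¹' U) ((hU.preimage hV).mem_nhds hzU)
  have h2 := hl.eventually (hW.mem_nhds haW)
  obtain ⟨n, hn1, hn2⟩ := (h1.and_eventually h2).exists
  exact (Set.disjoint_left.mp hd) hn1 hn2

end Pool.Helper62.HN
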