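import Pool.Agent.Helper62.HN.A

set_option autoImplicit false
open Filter Topology Set

namespace Pool.Helper62.HN

lemma h_iter_snd (c B : ℝ) (z : ℝ × ℝ) (n : ℕ) :
    ((h c B)^[n+1] z).2 = ((h c B)^[n] z).1 := by
  rw [Function.iterate_succ_apply']; rfl

lemma h_iter_fst (c B : ℝ) (z : ℝ × ℝ) (n : ℕ) :
    ((h c B)^[n+1] z).1 = ((h c B)^[n] z).1 ^ 2 + c + B * ((h c B)^[n] z).2 := by
  rw [Function.iterate_succ_apply']; rfl

/-- escape estimate -/
lemma escape_step (c B x y R : ℝ) (hR : |c| + |B| + 2 ≤ R) (hx : R < |x|) (hy : |y| ≤ |x|) :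
    R < |x ^ 2 + c + B * y| ∧ |x| ≤ |x ^ 2 + c + B * y| := by
  have hc := abs_nonneg c
  have hB := abs_nonneg B
  have h1 : |B * y| ≤ |B| * |x| := by rw [abs_mul]; exact mul_le_mul_of_nonneg_left hy hB
  have h2 : x ^ 2 = |x| * |x| := by rw [← sq, sq_abs]
  have h3 : |x| * |x| - |c| - |B| * |x| ≤ |x ^ 2 + c + B * y| := by
    have := le_abs_self (x ^ 2 + c + B * y)
    have h4 := neg_abs_le c
    have h5 := neg_abs_le (B * y)
    rw [← h2]; linarith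
  have h4 : |x| ≤ |x| * |x| - |c| - |B| * |x| := by nlinarith
  exact ⟨by linarith, by linarith⟩

/-- recurrent points have bounded orbits -/
lemma Rec.bdd {c B : ℝ} {z : ℝ × ℝ} (hz : Rec (h c B) z) :
    ∃ R, ∀ n, |((h c B)^[n] z).1| ≤ R ∧ |((h c B)^[n] z).2| ≤ R := by
  set R := max (|c| + |B| + 2) (max (|z.1| + 1) (|z.2| + 1)) with hR
  have hR1 : |c| + |B| + 2 ≤ R := le_max_left _ _
  have hR2 : |z.1| + 1 ≤ R := le_trans (le_max_left _ _) (le_max_right _ _)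
  have hR3 : |z.2| + 1 ≤ R := le_trans (le_max_right _ _) (le_max_right _ _)
  refine ⟨R, ?_⟩
  intro n
  by_contra hcon
  -- find an index with big first coordinate dominating the second
  have key : ∃ m, R < |((h c B)^[m] z).1| ∧ |((h c B)^[m] z).2| ≤ |((h c B)^[m] z).1| := by
    by_contra hno
    push Not at hno
    have hall : ∀ n, |((h c B)^[n] z).1| ≤ R ∧ |((h c B)^[n] z).2| ≤ R := by
      intro n
      induction n with
      | zero => exact ⟨by simp; linarith, by simp; linarith⟩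
      | succ n ih =>
        have h2 : |((h c B)^[n+1] z).2| ≤ R := by rw [h_iter_snd]; exact ih.1
        refine ⟨?_, h2⟩
        by_contra hlt
        push Not at hlt
        have := hno (n+1) hlt
        linarith
    exact hcon (hall n)
  obtain ⟨m, hm1, hm2⟩ := key
  have hall : ∀ k, R < |((h c B)^[m+k] z).1| ∧ |((h c B)^[m+k] z).2| ≤ |((h c B)^[m+k] z).1| := by
    intro k
    induction k with
    | zero => exact ⟨hm1, hm2⟩
    | succ k ih =>
      have e1 := h_iter_fst c B z (m+k)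
      have e2 := h_iter_snd c B z (m+k)
      rw [← add_assoc, e1, e2]
      exact escape_step c B _ _ R hR1 ih.1 ih.2
  have hU : {w : ℝ × ℝ | |w.1| < R} ∈ 𝓝 z :=
    (isOpen_lt (by fun_prop) continuous_const).mem_nhds (by show |z.1| < R; linarith)
  obtain ⟨n', hn1, hn2⟩ := ((hz _ hU).and_eventually (eventually_ge_atTop m)).exists
  obtain ⟨k, rfl⟩ := Nat.exists_eq_add_of_le hn2
  have := (hall k).1
  have h4 : |((h c B)^[m+k] z).1| < R := hn1
  linarith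

/-- the orbit closure -/
def Orb (f : ℝ × ℝ → ℝ × ℝ) (z : ℝ × ℝ) : Set (ℝ × ℝ) := closure (range fun n => f^[n] z)

lemma mem_Orb (f : ℝ × ℝ → ℝ × ℝ) (z : ℝ × ℝ) (n : ℕ) : f^[n] z ∈ Orb f z :=
  subset_closure ⟨n, rfl⟩

lemma self_mem_Orb (f : ℝ × ℝ → ℝ × ℝ) (z : ℝ × ℝ) : z ∈ Orb f z := mem_Orb f z 0

lemma Orb_compact {c B : ℝ} {z : ℝ × ℝ} (hz : Rec (h c B) z) : IsCompact (Orb (h c B) z) := by
  obtain ⟨R, hR⟩ := hz.bdd
  have hsub : (range fun n => (h c B)^[n] z) ⊆ Icc (-R) R ×ˢ Icc (-R) R := by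
    rintro _ ⟨n, rfl⟩
    exact ⟨abs_le.mp (hR n).1, abs_le.mp (hR n).2⟩
  have hc : IsCompact (Icc (-R) R ×ˢ Icc (-R) R : Set (ℝ × ℝ)) := isCompact_Icc.prod isCompact_Icc
  exact hc.of_isClosed_subset isClosed_closure (closure_minimal hsub hc.isClosed)

lemma Orb_maps {f : ℝ × ℝ → ℝ × ℝ} (hf : Continuous f) (z : ℝ × ℝ) {w : ℝ × ℝ} (hw : w ∈ Orb f z) :
    f w ∈ Orb f z := by
  have hm : MapsTo f (range fun n => f^[n] z) (range fun n => f^[n] z) := by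
    rintro _ ⟨n, rfl⟩
    exact ⟨n+1, by simp only [Function.iterate_succ_apply']⟩
  exact hm.closure hf hw

lemma Orb_surj {c B : ℝ} {z : ℝ × ℝ} (hz : Rec (h c B) z) {w : ℝ × ℝ} (hw : w ∈ Orb (h c B) z) :
    ∃ u ∈ Orb (h c B) z, h c B u = w := by
  have hK : IsCompact (h c B '' Orb (h c B) z) := (Orb_compact hz).image (h_cont c B)
  have hsub : (range fun n => (h c B)^[n] z) ⊆ h c B '' Orb (h c B) z := by
    have hz0 : z ∈ h c B '' Orb (h c B) z := by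
      rw [← hK.isClosed.closure_eq, mem_closure_iff_nhds]
      intro U hU
      obtain ⟨n, hn1, hn2⟩ := ((hz U hU).and_eventually (eventually_ge_atTop 1)).exists
      obtain ⟨k, rfl⟩ := Nat.exists_eq_add_of_le hn2
      refine ⟨_, hn1, (h c B)^[k] z, mem_Orb _ _ _, ?_⟩
      rw [← Function.iterate_succ_apply' (h c B) k z, add_comm]
    rintro _ ⟨n, rfl⟩
    cases n with
    | zero => simpa using hz0
    | succ n => exact ⟨(h c B)^[n] z, mem_Orb _ _ _, by simp only [Function.iterate_succ_apply']⟩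
  have := closure_minimal hsub hK.isClosed hw
  obtain ⟨u, hu, e⟩ := this
  exact ⟨u, hu, e⟩

/-- data of a compact set on which the map is onto -/
structure Inv (c B : ℝ) (K : Set (ℝ × ℝ)) : Prop where
  cpt : IsCompact K
  maps : ∀ w ∈ K, h c B w ∈ K
  surj : ∀ w ∈ K, ∃ u ∈ K, h c B u = w

lemma Orb_inv {c B : ℝ} {z : ℝ × ℝ} (hz : Rec (h c B) z) : Inv c B (Orb (h c B) z) :=
  ⟨Orb_compact hz, fun _ hw => Orb_maps (h_cont c B) z hw, fun _ hw => Orb_surj hz hw⟩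

/-- preimage data: a point of `K` is `(x, y)` with `x = y^2 + c + B w`, and `(y, w) ∈ K` -/
lemma Inv.pre {c B : ℝ} {K : Set (ℝ × ℝ)} (hK : Inv c B K) {p : ℝ × ℝ} (hp : p ∈ K) :
    ∃ w, (p.2, w) ∈ K ∧ p.1 = p.2 ^ 2 + c + B * w := by
  obtain ⟨u, hu, e⟩ := hK.surj p hp
  have e1 : u.1 = p.2 := by rw [← e]; rfl
  have e2 : p.1 = u.1 ^ 2 + c + B * u.2 := by rw [← e]; rfl
  refine ⟨u.2, ?_, ?_⟩
  · rw [← e1]; exact hu
  · rw [← e1]; exact e2

/-- minimal and maximal first coordinate -/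
lemma Inv.bounds {c B : ℝ} {K : Set (ℝ × ℝ)} (hK : Inv c B K) (hne : K.Nonempty) :
    ∃ l L : ℝ, (∀ p ∈ K, l ≤ p.1 ∧ p.1 ≤ L ∧ l ≤ p.2 ∧ p.2 ≤ L) ∧
      (∃ y, (l, y) ∈ K) ∧ (∃ y, (L, y) ∈ K) := by
  obtain ⟨p, hp, hpm⟩ := hK.cpt.exists_isMinOn hne continuous_fst.continuousOn
  obtain ⟨q, hq, hqm⟩ := hK.cpt.exists_isMaxOn hne continuous_fst.continuousOn
  refine ⟨p.1, q.1, ?_, ⟨p.2, hp⟩, ⟨q.2, hq⟩⟩
  intro w hw
  have h1 := isMinOn_iff.mp hpm w hw
  have h2 := isMaxOn_iff.mp hqm w hw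
  obtain ⟨v, hv, -⟩ := hK.pre hw
  have h3 := isMinOn_iff.mp hpm _ hv
  have h4 := isMaxOn_iff.mp hqm _ hv
  exact ⟨h1, h2, h3, h4⟩

end Pool.Helper62.HN
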