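import Pool.Agent.Helper62.HN.B

set_option autoImplicit false
open Filter Topology Set

namespace Pool.Helper62.HN

/-- upper bound by the saddle fixed point -/
lemma stepC {c B X : ℝ} (hB : 0 < B) (hB1 : B ≤ 1) (hX0 : 0 < X)
    (hX : X ^ 2 + c + B * X = X) (hX2 : 1 - B ≤ 2 * X)
    {K : Set (ℝ × ℝ)} (hK : Inv c B K) (hlow : ∀ p ∈ K, -X < p.2) :
    (∀ p ∈ K, p.1 ≤ X) ∧ ∀ p ∈ K, p.1 = X → p.2 = X := by
  -- the quadrant
  have hQ : ∀ p ∈ K, X ≤ p.1 → X ≤ p.2 → p = (X, X) := by
    set Q : Set (ℝ × ℝ) := K ∩ {p | X ≤ p.1 ∧ X ≤ p.2} with hQdef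
    have hQcl : IsClosed {p : ℝ × ℝ | X ≤ p.1 ∧ X ≤ p.2} :=
      (isClosed_le continuous_const continuous_fst).inter
        (isClosed_le continuous_const continuous_snd)
    have hQc : IsCompact Q := hK.cpt.inter_right hQcl
    have hQm : ∀ p ∈ Q, h c B p ∈ Q := by
      rintro p ⟨hp, hp1, hp2⟩
      refine ⟨hK.maps p hp, ?_, ?_⟩
      · show X ≤ p.1 ^ 2 + c + B * p.2
        have : X ^ 2 ≤ p.1 ^ 2 := by nlinarith
        nlinarith
      · exact hp1
    intro p hp hp1 hp2
    have hpQ : p ∈ Q := ⟨hp, hp1, hp2⟩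
    obtain ⟨z, hz, hzm⟩ := hQc.exists_isMaxOn ⟨p, hpQ⟩
      (show ContinuousOn (fun p : ℝ × ℝ => p.1 + B * p.2) Q by fun_prop)
    have key : ∀ u ∈ Q, (∀ w ∈ Q, w.1 + B * w.2 ≤ u.1 + B * u.2) → u.1 = X := by
      intro u hu hmax
      have h1 := hmax _ (hQm u hu)
      have h2 : (h c B u).1 + B * (h c B u).2 = u.1 ^ 2 + c + B * u.2 + B * u.1 := rfl
      rw [h2] at h1
      have h3 : (u.1 - X) * (u.1 - (1 - B - X)) ≤ 0 := by nlinarith
      obtain ⟨-, hu1, -⟩ := hu
      by_contra hne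
      have h4 : X < u.1 := lt_of_le_of_ne hu1 (Ne.symm hne)
      have h5 : 0 < (u.1 - X) * (u.1 - (1 - B - X)) := mul_pos (by linarith) (by linarith)
      linarith
    have hzm' : ∀ w ∈ Q, w.1 + B * w.2 ≤ z.1 + B * z.2 := fun w hw => isMaxOn_iff.mp hzm w hw
    have hz1 : z.1 = X := key z hz hzm'
    have hfz : (h c B z).1 + B * (h c B z).2 = z.1 + B * z.2 := by
      show z.1 ^ 2 + c + B * z.2 + B * z.1 = z.1 + B * z.2
      rw [hz1]; linarith
    have hfz1 : (h c B z).1 = X := key _ (hQm z hz) (by rw [hfz]; exact hzm')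
    have hz2 : z.2 = X := by
      have : z.1 ^ 2 + c + B * z.2 = X := hfz1
      rw [hz1] at this
      have h6 : B * z.2 = B * X := by linarith
      exact mul_left_cancel₀ hB.ne' h6
    have h7 := hzm' p hpQ
    rw [hz1, hz2] at h7
    have h8 : p.1 = X := by nlinarith
    have h9 : p.2 = X := by
      rw [h8] at h7
      have : B * p.2 ≤ B * X := by linarith
      have := le_of_mul_le_mul_left this hB
      linarith
    exact Prod.ext h8 h9
  by_cases hne : K.Nonempty
  swap
  · rw [Set.not_nonempty_iff_eq_empty] at hne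
    subst hne
    exact ⟨fun p hp => absurd hp (Set.notMem_empty p), fun p hp => absurd hp (Set.notMem_empty p)⟩
  obtain ⟨l, L, hb, -, ⟨yL, hyL⟩⟩ := hK.bounds hne
  have hbig : ∀ y, X ≤ L → (L, y) ∈ K → L = X ∧ y = X := by
    intro y hL hy
    obtain ⟨w, hw, e⟩ := hK.pre hy
    simp only at hw e
    have hwL := (hb _ hw).2.2.2
    simp only at hwL
    have h1 : X ^ 2 ≤ y ^ 2 := by nlinarith
    have h2 : -X < y := hlow _ hy
    have h3 : X ≤ y := by
      by_contra hlt
      push Not at hlt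
      have : y ^ 2 < X ^ 2 := sq_lt_sq' h2 hlt
      linarith
    have := hQ _ hy hL h3
    exact ⟨congrArg Prod.fst this, congrArg Prod.snd this⟩
  refine ⟨fun p hp => ?_, fun p hp hpX => ?_⟩
  · have h1 := (hb p hp).2.1
    by_contra hlt
    push Not at hlt
    have := (hbig yL (by linarith) hyL).1
    linarith
  · have h1 := (hb p hp).2.1
    have hL : X ≤ L := by linarith
    have hLX := (hbig yL hL hyL).1
    have hpe : (L, p.2) = p := Prod.ext (by simp only; linarith) rfl
    exact (hbig p.2 hL (by rw [hpe]; exact hp)).2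

/-- repulsion from the saddle -/
lemma stepC2 {c B X : ℝ} (hB : 0 < B) (hX0 : 0 < X)
    (hX : X ^ 2 + c + B * X = X) (hX2 : 1 - B < 2 * X)
    {z : ℝ × ℝ} (hz : Rec (h c B) z)
    (hlow : ∀ p ∈ Orb (h c B) z, -X < p.1 ∧ p.1 ≤ X ∧ p.2 ≤ X)
    (hmem : (X, X) ∈ Orb (h c B) z) : z = (X, X) := by
  obtain ⟨lam, hlam0, hlam⟩ : ∃ lam : ℝ, 0 < lam ∧ lam ^ 2 = 2 * X * lam + B := by
    refine ⟨X + Real.sqrt (X ^ 2 + B), by positivity, ?_⟩
    have := Real.sq_sqrt (show 0 ≤ X ^ 2 + B by positivity)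
    nlinarith
  set m := B / lam with hm
  have hm0 : 0 < m := by positivity
  have hml : lam * m = B := by rw [hm]; field_simp
  have hlm : lam = 2 * X + m := by
    have : lam * lam = lam * (2 * X + m) := by nlinarith
    exact mul_left_cancel₀ hlam0.ne' this
  have hlam1 : 1 < lam := by
    by_contra hle
    push Not at hle
    have : B ≤ m := by rw [← hml]; nlinarith
    linarith
  let W : ℝ × ℝ → ℝ := fun p => (X - p.1) + m * (X - p.2)
  have hWc : Continuous W := by fun_prop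
  have hW0 : ∀ p ∈ Orb (h c B) z, 0 ≤ W p := by
    intro p hp
    obtain ⟨-, h1, h2⟩ := hlow p hp
    have : 0 ≤ m * (X - p.2) := mul_nonneg hm0.le (by linarith)
    show 0 ≤ (X - p.1) + m * (X - p.2)
    linarith
  have hWf : ∀ p, W (h c B p) = lam * W p - (X - p.1) ^ 2 := by
    intro p
    show (X - (p.1 ^ 2 + c + B * p.2)) + m * (X - p.1) =
      lam * ((X - p.1) + m * (X - p.2)) - (X - p.1) ^ 2
    have e1 : lam * (m * (X - p.2)) = B * (X - p.2) := by rw [← mul_assoc, hml]
    rw [mul_add, e1, hlm]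
    nlinarith
  have hWge : ∀ p ∈ Orb (h c B) z, m * W p ≤ W (h c B p) := by
    intro p hp
    obtain ⟨h0, h1, h2⟩ := hlow p hp
    rw [hWf]
    show m * ((X - p.1) + m * (X - p.2)) ≤ lam * ((X - p.1) + m * (X - p.2)) - (X - p.1) ^ 2
    rw [hlm]
    have e1 : 0 ≤ (X - p.1) * (X + p.1) := mul_nonneg (by linarith) (by linarith)
    have e2 : 0 ≤ X * (m * (X - p.2)) := mul_nonneg hX0.le (mul_nonneg hm0.le (by linarith))
    nlinarith
  have hvW : ∀ p ∈ Orb (h c B) z, X - p.1 ≤ W p := by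
    intro p hp
    obtain ⟨-, h1, h2⟩ := hlow p hp
    have : 0 ≤ m * (X - p.2) := mul_nonneg hm0.le (by linarith)
    show X - p.1 ≤ (X - p.1) + m * (X - p.2)
    linarith
  set rho := (1 + lam) / 2 with hrho
  have hrho1 : 1 < rho := by rw [hrho]; linarith
  set eps := m * ((lam - 1) / 2) with heps
  have heps0 : 0 < eps := by rw [heps]; exact mul_pos hm0 (by linarith)
  have hback : ∀ p ∈ Orb (h c B) z, W (h c B p) < eps → rho * W p ≤ W (h c B p) := by
    intro p hp hlt
    have h1 := hWge p hp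
    have h2 : W p < (lam - 1) / 2 := by
      have : m * W p < m * ((lam - 1) / 2) := lt_of_le_of_lt h1 hlt
      exact lt_of_mul_lt_mul_left this hm0.le
    have h3 := hvW p hp
    have h4 := hW0 p hp
    obtain ⟨-, h5, -⟩ := hlow p hp
    rw [hWf]
    have h6 : (X - p.1) ^ 2 ≤ ((lam - 1) / 2) * W p := by
      have : (X - p.1) ^ 2 = (X - p.1) * (X - p.1) := sq _
      rw [this]
      exact mul_le_mul (by linarith) h3 (by linarith) (by linarith)
    rw [hrho]
    nlinarith
  -- backward induction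
  have hback2 : ∀ n, W ((h c B)^[n] z) < eps → W z ≤ W ((h c B)^[n] z) ∧
      (1 ≤ n → rho * W z ≤ W ((h c B)^[n] z)) := by
    intro n
    induction n with
    | zero => intro _; exact ⟨le_refl _, fun hc => absurd hc (by norm_num)⟩
    | succ n ih =>
      intro hlt
      rw [Function.iterate_succ_apply'] at hlt ⊢
      have h1 := hback _ (mem_Orb (h c B) z n) hlt
      have h2 := hW0 _ (mem_Orb (h c B) z n)
      have h3 : W ((h c B)^[n] z) ≤ W (h c B ((h c B)^[n] z)) := by nlinarith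
      obtain ⟨h4, -⟩ := ih (lt_of_le_of_lt h3 hlt)
      refine ⟨by linarith, fun _ => ?_⟩
      nlinarith
  have hWX : W (X, X) = 0 := by
    show (X - X) + m * (X - X) = 0
    ring
  have hWz : W z < eps := by
    have hn : {w : ℝ × ℝ | W w < eps} ∈ 𝓝 (X, X) :=
      (isOpen_lt hWc continuous_const).mem_nhds (by show W (X, X) < eps; rw [hWX]; exact heps0)
    obtain ⟨_, hw, ⟨n, rfl⟩⟩ := mem_closure_iff_nhds.mp hmem _ hn
    have hw' : W ((h c B)^[n] z) < eps := hw
    have := (hback2 n hw').1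
    linarith
  have hz0 := hW0 z (self_mem_Orb _ _)
  rcases hz0.lt_or_eq with hpos | hzero
  · exfalso
    have hU : {w : ℝ × ℝ | W w < min eps (rho * W z)} ∈ 𝓝 z :=
      (isOpen_lt hWc continuous_const).mem_nhds (by
        show W z < min eps (rho * W z)
        exact lt_min hWz (by nlinarith))
    obtain ⟨n, hn1, hn2⟩ := ((hz _ hU).and_eventually (eventually_ge_atTop 1)).exists
    have hn1' : W ((h c B)^[n] z) < min eps (rho * W z) := hn1
    have h1 := (hback2 n (lt_of_lt_of_le hn1' (min_le_left _ _))).2 hn2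
    have h2 := lt_of_lt_of_le hn1' (min_le_right _ _)
    linarith
  · obtain ⟨-, h1, h2⟩ := hlow z (self_mem_Orb _ _)
    have h3 : 0 ≤ m * (X - z.2) := mul_nonneg hm0.le (by linarith)
    have h4 : (X - z.1) + m * (X - z.2) = 0 := hzero.symm
    have h5 : z.1 = X := by linarith
    have h6 : m * (X - z.2) = 0 := by linarith
    have h7 : X - z.2 = 0 := (mul_eq_zero.mp h6).resolve_left hm0.ne'
    exact Prod.ext h5 (by simp only; linarith)

end Pool.Helper62.HN
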