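import Pool.Agent.Helper62.HN.C

set_option autoImplicit false
open Filter Topology Set

namespace Pool.Helper62.HN

/-- the monotone (alternating) case -/
lemma stepD {c B : ℝ} (hB : 0 ≤ B) {z : ℝ × ℝ} (hz : Rec (h c B) z)
    (hneg : ∀ n, ((h c B)^[n] z).2 ≤ 0) : h c B (h c B z) = z := by
  set s : ℕ → ℝ := fun n => ((h c B)^[n] z).2 with hs
  have hpt : ∀ n, (h c B)^[n] z = (s (n+1), s n) := by
    intro n
    refine Prod.ext ?_ rfl
    show ((h c B)^[n] z).1 = ((h c B)^[n+1] z).2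
    rw [h_iter_snd]
  have hrec : ∀ n, s (n+2) = s (n+1) ^ 2 + c + B * s n := by
    intro n
    show ((h c B)^[n+2] z).2 = _
    rw [h_iter_snd, h_iter_fst, hpt]
  have hs0 : ∀ n, s n ≤ 0 := hneg
  have hd : ∀ n, s (n+4) - s (n+2) = (s (n+3) - s (n+1)) * (s (n+3) + s (n+1))
      + B * (s (n+2) - s n) := by
    intro n
    rw [hrec (n+2), hrec n]
    ring
  -- propagation of the sign pattern
  have hprop1 : ∀ n, 0 ≤ s (n+2) - s n → s (n+3) - s (n+1) ≤ 0 → 0 ≤ s (n+4) - s (n+2) := by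
    intro n h1 h2
    rw [hd]
    have h3 : s (n+3) + s (n+1) ≤ 0 := by linarith [hs0 (n+3), hs0 (n+1)]
    have h4 := mul_nonneg_of_nonpos_of_nonpos h2 h3
    have h5 := mul_nonneg hB h1
    linarith
  have hprop2 : ∀ n, s (n+2) - s n ≤ 0 → 0 ≤ s (n+3) - s (n+1) → s (n+4) - s (n+2) ≤ 0 := by
    intro n h1 h2
    rw [hd]
    have h3 : s (n+3) + s (n+1) ≤ 0 := by linarith [hs0 (n+3), hs0 (n+1)]
    have h4 := mul_nonpos_of_nonneg_of_nonpos h2 h3
    have h5 := mul_nonpos_of_nonneg_of_nonpos hB h1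
    linarith
  have hpat : ∀ n, 0 ≤ s (n+2) - s n → s (n+3) - s (n+1) ≤ 0 →
      ∀ k, 0 ≤ s (n+2*k+2) - s (n+2*k) ∧ s (n+2*k+3) - s (n+2*k+1) ≤ 0 := by
    intro n h1 h2 k
    induction k with
    | zero => exact ⟨h1, h2⟩
    | succ k ih =>
      obtain ⟨i1, i2⟩ := ih
      have i3 := hprop1 (n+2*k) i1 i2
      have i4 := hprop2 (n+2*k+1) i2 i3
      exact ⟨i3, i4⟩
  -- there are N and directions
  have hdir : ∃ N : ℕ, ((∀ k, s (N+2*k) ≤ s (N+2*k+2)) ∨ (∀ k, s (N+2*k+2) ≤ s (N+2*k))) ∧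
      ((∀ k, s (N+2*k+1) ≤ s (N+2*k+3)) ∨ (∀ k, s (N+2*k+3) ≤ s (N+2*k+1))) := by
    by_cases hex : ∃ n, (0 ≤ s (n+2) - s n ∧ s (n+3) - s (n+1) ≤ 0) ∨
        (s (n+2) - s n ≤ 0 ∧ 0 ≤ s (n+3) - s (n+1))
    · obtain ⟨n, ⟨h1, h2⟩ | ⟨h1, h2⟩⟩ := hex
      · refine ⟨n, Or.inl fun k => ?_, Or.inr fun k => ?_⟩
        · linarith [(hpat n h1 h2 k).1]
        · linarith [(hpat n h1 h2 k).2]
      · have h3 := hprop2 n h1 h2
        refine ⟨n+1, Or.inl fun k => ?_, Or.inr fun k => ?_⟩
        · linarith [(hpat (n+1) h2 h3 k).1]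
        · linarith [(hpat (n+1) h2 h3 k).2]
    · push Not at hex
      have hstep : ∀ n, (0 < s (n+2) - s n → 0 < s (n+3) - s (n+1)) ∧
          (s (n+2) - s n < 0 → s (n+3) - s (n+1) < 0) ∧ s (n+2) - s n ≠ 0 := by
        intro n
        obtain ⟨h1, h2⟩ := hex n
        refine ⟨fun h => h1 h.le, fun h => h2 h.le, fun h => ?_⟩
        have h3 := h1 h.ge
        have h4 := h2 h.le
        linarith
      rcases lt_or_gt_of_ne (hstep 0).2.2 with h0 | h0
      · have hall : ∀ n, s (n+2) - s n < 0 := by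
          intro n
          induction n with
          | zero => exact h0
          | succ n ih => exact (hstep n).2.1 ih
        refine ⟨0, Or.inr fun k => ?_, Or.inr fun k => ?_⟩
        · linarith [hall (0+2*k)]
        · linarith [hall (0+2*k+1)]
      · have hall : ∀ n, 0 < s (n+2) - s n := by
          intro n
          induction n with
          | zero => exact h0
          | succ n ih => exact (hstep n).1 ih
        refine ⟨0, Or.inl fun k => ?_, Or.inl fun k => ?_⟩
        · linarith [hall (0+2*k)]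
        · linarith [hall (0+2*k+1)]
  obtain ⟨N, hA, hBd⟩ := hdir
  obtain ⟨R, hR⟩ := hz.bdd
  have hsR : ∀ n, -R ≤ s n ∧ s n ≤ R := fun n => abs_le.mp (hR n).2
  have hconv : ∀ a : ℕ → ℝ, (∀ k, -R ≤ a k ∧ a k ≤ R) →
      ((∀ k, a k ≤ a (k+1)) ∨ (∀ k, a (k+1) ≤ a k)) → ∃ x, Tendsto a atTop (𝓝 x) := by
    intro a ha hmon
    rcases hmon with hm | hm
    · exact ⟨_, tendsto_atTop_ciSup (monotone_nat_of_le_succ hm)
        ⟨R, by rintro _ ⟨k, rfl⟩; exact (ha k).2⟩⟩
    · exact ⟨_, tendsto_atTop_ciInf (antitone_nat_of_succ_le hm)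
        ⟨-R, by rintro _ ⟨k, rfl⟩; exact (ha k).1⟩⟩
  obtain ⟨a, ha⟩ := hconv (fun k => s (N+2*k)) (fun k => hsR _) (by
    rcases hA with hm | hm
    · exact Or.inl fun k => hm k
    · exact Or.inr fun k => hm k)
  obtain ⟨b, hb⟩ := hconv (fun k => s (N+2*k+1)) (fun k => hsR _) (by
    rcases hBd with hm | hm
    · exact Or.inl fun k => hm k
    · exact Or.inr fun k => hm k)
  have hT0 : Tendsto (fun k => (h c B)^[N+2*k] z) atTop (𝓝 (b, a)) := by
    have : (fun k => (h c B)^[N+2*k] z) = fun k => (s (N+2*k+1), s (N+2*k)) := by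
      funext k; exact hpt _
    rw [this]
    exact hb.prodMk_nhds ha
  have hT1 : Tendsto (fun k => (h c B)^[N+2*k+1] z) atTop (𝓝 (h c B (b, a))) := by
    have : (fun k => (h c B)^[N+2*k+1] z) = fun k => h c B ((h c B)^[N+2*k] z) := by
      funext k; rw [Function.iterate_succ_apply']
    rw [this]
    exact ((h_cont c B).tendsto _).comp hT0
  have hT2 : Tendsto (fun k => (h c B)^[N+2*(k+1)] z) atTop (𝓝 (h c B (h c B (b, a)))) := by
    have : (fun k => (h c B)^[N+2*(k+1)] z) = fun k => h c B ((h c B)^[N+2*k+1] z) := by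
      funext k
      rw [← Function.iterate_succ_apply' (h c B)]
      rfl
    rw [this]
    exact ((h_cont c B).tendsto _).comp hT1
  have hq : h c B (h c B (b, a)) = (b, a) :=
    tendsto_nhds_unique hT2 (hT0.comp (tendsto_add_atTop_nat 1))
  have hz2 : z = (b, a) ∨ z = h c B (b, a) := by
    by_contra hcon
    push Not at hcon
    obtain ⟨U1, W1, hU1, hW1, hzU1, hqW1, hd1⟩ := t2_separation hcon.1
    obtain ⟨U2, W2, hU2, hW2, hzU2, hqW2, hd2⟩ := t2_separation hcon.2
    have e1 := hT0.eventually (hW1.mem_nhds hqW1)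
    have e2 := hT1.eventually (hW2.mem_nhds hqW2)
    obtain ⟨K0, hK0⟩ := eventually_atTop.mp (e1.and e2)
    obtain ⟨n, hn1, hn2⟩ := ((hz _ ((hU1.inter hU2).mem_nhds ⟨hzU1, hzU2⟩)).and_eventually
      (eventually_ge_atTop (N+2*K0))).exists
    obtain ⟨t, rfl⟩ := Nat.exists_eq_add_of_le hn2
    rcases Nat.even_or_odd' t with ⟨r, rfl | rfl⟩
    · have h1 := (hK0 (K0+r) (by omega)).1
      have e : N + 2 * K0 + 2 * r = N + 2 * (K0 + r) := by ring
      rw [e] at hn1
      exact Set.disjoint_left.mp hd1 hn1.1 h1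
    · have h1 := (hK0 (K0+r) (by omega)).2
      have e : N + 2 * K0 + (2 * r + 1) = N + 2 * (K0 + r) + 1 := by ring
      rw [e] at hn1
      exact Set.disjoint_left.mp hd2 hn1.2 h1
  rcases hz2 with rfl | hz3
  · exact hq
  · rw [hz3, hq]

/-- along the orbit of a recurrent point with a monotone `x + B y` -/
lemma fixed_of_quad {c B : ℝ} (hB : 0 < B) (hB1 : B ≤ 1) {z : ℝ × ℝ} (hz : Rec (h c B) z)
    (hq : ∀ n, ((h c B)^[n] z).1 ^ 2 - (1 - B) * ((h c B)^[n] z).1 + c = 0) :
    h c B (h c B z) = z := by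
  have hstep : ∀ n, ((h c B)^[n+1] z).1 - ((h c B)^[n+1] z).2 =
      (-B) * (((h c B)^[n] z).1 - ((h c B)^[n] z).2) := by
    intro n
    rw [h_iter_fst, h_iter_snd]
    linarith [hq n]
  rcases hB1.lt_or_eq with hlt | heq
  · have hpow : ∀ n, ((h c B)^[n] z).1 - ((h c B)^[n] z).2 = (-B) ^ n * (z.1 - z.2) := by
      intro n
      induction n with
      | zero => simp
      | succ n ih => rw [hstep, ih, pow_succ]; ring
    have hl : Tendsto (fun n => (fun p : ℝ × ℝ => p.1 - p.2) ((h c B)^[n] z)) atTop (𝓝 0) := by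
      have h1 : Tendsto (fun n : ℕ => (-B) ^ n * (z.1 - z.2)) atTop (𝓝 (0 * (z.1 - z.2))) := by
        refine Tendsto.mul_const _ (tendsto_pow_atTop_nhds_zero_of_abs_lt_one ?_)
        rw [abs_neg, abs_of_pos hB]; exact hlt
      rw [zero_mul] at h1
      refine h1.congr fun n => (hpow n).symm
    have h0 : z.1 - z.2 = 0 :=
      hz.lim (V := fun p : ℝ × ℝ => p.1 - p.2) (by fun_prop) hl
    have h2 := hq 0
    simp only [Function.iterate_zero, id_eq] at h2
    have hfix : h c B z = z := by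
      refine Prod.ext ?_ ?_
      · show z.1 ^ 2 + c + B * z.2 = z.1
        have : z.2 = z.1 := by linarith
        rw [this]; linarith
      · show z.1 = z.2
        linarith
    rw [hfix, hfix]
  · have h0 := hq 0
    have h1 := hq 1
    simp only [Function.iterate_zero, id_eq, Function.iterate_one] at h0 h1
    subst heq
    have e1 : (h c 1 z).1 = z.2 := by
      show z.1 ^ 2 + c + 1 * z.2 = z.2
      linarith
    refine Prod.ext ?_ e1
    show (h c 1 z).1 ^ 2 + c + 1 * (h c 1 z).2 = z.1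
    have e2 : (h c 1 z).2 = z.1 := rfl
    rw [e2]; linarith

/-- **main topological statement**, `0 < B ≤ 1` -/
theorem rec_period_two {c B : ℝ} (hB : 0 < B) (hB1 : B ≤ 1) (hc : -(1 - B) ^ 2 ≤ c)
    {z : ℝ × ℝ} (hz : Rec (h c B) z) : h c B (h c B z) = z := by
  have hcont := h_cont c B
  have hVstep : ∀ n, ((h c B)^[n+1] z).1 + B * ((h c B)^[n+1] z).2 -
      (((h c B)^[n] z).1 + B * ((h c B)^[n] z).2) =
      ((h c B)^[n] z).1 ^ 2 - (1 - B) * ((h c B)^[n] z).1 + c := by
    intro n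
    rw [h_iter_fst, h_iter_snd]; ring
  by_cases hdisc : (1 - B) ^ 2 ≤ 4 * c
  · apply fixed_of_quad hB hB1 hz
    intro n
    have hm : ∀ n, (fun p : ℝ × ℝ => p.1 + B * p.2) ((h c B)^[n] z) ≤
        (fun p : ℝ × ℝ => p.1 + B * p.2) ((h c B)^[n+1] z) := by
      intro n
      have := hVstep n
      simp only
      nlinarith [sq_nonneg (2 * ((h c B)^[n] z).1 - (1 - B))]
    have := hz.const hcont (V := fun p : ℝ × ℝ => p.1 + B * p.2) (by fun_prop) hm n
    linarith [hVstep n]
  push Not at hdisc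
  have hBlt : B < 1 := by
    rcases hB1.lt_or_eq with h1 | h1
    · exact h1
    · subst h1; norm_num at hdisc hc; linarith
  -- the saddle fixed point
  obtain ⟨X, hX, hX2⟩ : ∃ X : ℝ, X ^ 2 + c + B * X = X ∧ 1 - B < 2 * X := by
    refine ⟨((1 - B) + Real.sqrt ((1 - B) ^ 2 - 4 * c)) / 2, ?_, ?_⟩
    · have := Real.sq_sqrt (show 0 ≤ (1 - B) ^ 2 - 4 * c by linarith)
      nlinarith
    · have := Real.sqrt_pos.mpr (show 0 < (1 - B) ^ 2 - 4 * c by linarith)
      linarith
  have hX0 : 0 < X := by linarith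
  have hK := Orb_inv hz
  have hne : (Orb (h c B) z).Nonempty := ⟨z, self_mem_Orb _ _⟩
  obtain ⟨l, L, hb, ⟨yl, hyl⟩, ⟨yL, hyL⟩⟩ := hK.bounds hne
  have hl1 : c ≤ (1 - B) * l := by
    obtain ⟨w, hw, e⟩ := hK.pre hyl
    simp only at hw e
    have := (hb _ hw).2.2.1
    simp only at this
    nlinarith [sq_nonneg yl]
  rcases le_or_gt 0 c with hc0 | hc0
  · -- c ≥ 0
    have hl0 : 0 ≤ l := by
      by_contra hlt
      push Not at hlt
      nlinarith
    have hlow : ∀ p ∈ Orb (h c B) z, -X < p.2 := fun p hp => by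
      have := (hb p hp).2.2.1; linarith
    obtain ⟨hup, -⟩ := stepC hB hB1 hX0 hX hX2.le hK hlow
    have hql : l ^ 2 - (1 - B) * l + c ≤ 0 := by
      obtain ⟨w, hw, e⟩ := hK.pre hyl
      simp only at hw e
      have h1 := (hb _ hw).1
      have h2 := (hb _ hw).2.2.1
      simp only at h1 h2
      have : l ^ 2 ≤ yl ^ 2 := by nlinarith
      nlinarith
    have hlo2 : 1 - B - X ≤ l := by
      by_contra hlt
      push Not at hlt
      have : 0 < (l - X) * (l - (1 - B - X)) :=
        mul_pos_of_neg_of_neg (by linarith) (by linarith)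
      nlinarith
    apply fixed_of_quad hB hB1 hz
    intro n
    have hm : ∀ n, (fun p : ℝ × ℝ => -(p.1 + B * p.2)) ((h c B)^[n] z) ≤
        (fun p : ℝ × ℝ => -(p.1 + B * p.2)) ((h c B)^[n+1] z) := by
      intro n
      have h1 := hVstep n
      have h2 := hup _ (mem_Orb (h c B) z n)
      have h3 := (hb _ (mem_Orb (h c B) z n)).1
      simp only
      have h4 : 0 ≤ (X - ((h c B)^[n] z).1) * (((h c B)^[n] z).1 - (1 - B - X)) :=
        mul_nonneg (by linarith) (by linarith)
      nlinarith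
    have := hz.const hcont (V := fun p : ℝ × ℝ => -(p.1 + B * p.2)) (by fun_prop) hm n
    linarith [hVstep n]
  · -- c < 0
    have hX1 : 1 - B < X := by
      by_contra hle
      push Not at hle
      nlinarith
    have hl2 : -(1 - B) ≤ l := by
      by_contra hlt
      push Not at hlt
      nlinarith
    by_cases hL0 : L ≤ 0
    · apply stepD hB.le hz
      intro n
      have := (hb _ (mem_Orb (h c B) z n)).2.2.2
      linarith
    push Not at hL0
    have hLX : X ≤ L := by
      obtain ⟨w, hw, e⟩ := hK.pre hyL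
      simp only at hw e
      have h1 := (hb _ hw).1
      have h2 := (hb _ hw).2.1
      have h3 := (hb _ hw).2.2.2
      simp only at h1 h2 h3
      have hBw : B * w ≤ B * L := mul_le_mul_of_nonneg_left h3 hB.le
      by_cases hyl2 : -L ≤ yL
      · have h4 : yL ^ 2 ≤ L ^ 2 := sq_le_sq' hyl2 h2
        have h5 : 0 ≤ L ^ 2 - (1 - B) * L + c := by linarith
        by_contra hlt
        push Not at hlt
        have h6 : (L - X) * (L - (1 - B - X)) < 0 :=
          mul_neg_of_neg_of_pos (by linarith) (by linarith)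
        nlinarith
      · exfalso
        push Not at hyl2
        have hyneg : yL < 0 := by linarith
        have h4 : yL ^ 2 ≤ l ^ 2 := by nlinarith
        have hlneg : l < 0 := by linarith
        have h5 : (1 - B) * L ≤ l ^ 2 + c := by linarith
        have h6 : ((1 - B) * l) ^ 2 ≤ c ^ 2 := by
          have h7 : (1 - B) * l ≤ 0 := by nlinarith
          nlinarith
        have h8 : (1 - B) ^ 2 * ((1 - B) * L) ≤ (1 - B) ^ 2 * (l ^ 2 + c) :=
          mul_le_mul_of_nonneg_left h5 (sq_nonneg _)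
        have h9 : (1 - B) ^ 2 * (l ^ 2 + c) ≤ c ^ 2 + (1 - B) ^ 2 * c := by nlinarith
        have h10 : c ^ 2 + (1 - B) ^ 2 * c ≤ 0 := by
          have : c * (c + (1 - B) ^ 2) ≤ 0 :=
            mul_nonpos_of_nonpos_of_nonneg hc0.le (by linarith)
          nlinarith
        have h11 : 0 < (1 - B) ^ 2 * ((1 - B) * L) := by
          have : 0 < 1 - B := by linarith
          positivity
        linarith
    have hlow : ∀ p ∈ Orb (h c B) z, -X < p.2 := fun p hp => by
      have := (hb p hp).2.2.1; linarith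
    obtain ⟨hup, hup2⟩ := stepC hB hB1 hX0 hX hX2.le hK hlow
    have hLeq : L = X := le_antisymm (hup _ hyL) hLX
    have hyLX : yL = X := hup2 _ hyL hLeq
    have hmem : (X, X) ∈ Orb (h c B) z := by
      rw [hLeq, hyLX] at hyL; exact hyL
    have hzX : z = (X, X) := by
      apply stepC2 hB hX0 hX hX2 hz _ hmem
      intro p hp
      obtain ⟨h1, h2, h3, h4⟩ := hb p hp
      exact ⟨by linarith, by linarith, by linarith⟩
    have hfix : h c B z = z := by
      rw [hzX]
      exact Prod.ext hX rfl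
    rw [hfix, hfix]

end Pool.Helper62.HN
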