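import Pool.Agent.Helper62.HN.D

set_option autoImplicit false
open Filter Topology Set

namespace Pool.Helper62.HN

section
variable (c b : ℝ)

/-- the quadratic -/
def q (x : ℝ) : ℝ := x ^ 2 - (1 + b) * x + c

/-- the potential -/
noncomputable def U (x : ℝ) : ℝ := -(x ^ 3 / 3 - (1 + b) * x ^ 2 / 2 + c * x)

/-- the Lyapunov function for `b ≤ 1/2` -/
noncomputable def L1 (p : ℝ × ℝ) : ℝ :=
  6 * U c b p.1 + (p.1 - p.2) ^ 2 + 2 * (p.1 - p.2) * q c b p.1

/-- the Lyapunov function for `b ≥ 1/2` -/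
noncomputable def L2 (p : ℝ × ℝ) : ℝ :=
  6 * U c b p.1 + (4 * b - 1) * (p.1 - p.2) ^ 2 + 2 * (p.1 - p.2) * q c b p.1

noncomputable def H3 (p : ℝ × ℝ) : ℝ :=
  U c b p.1 + b / 2 * (p.1 - p.2) ^ 2 + (p.1 - p.2) * q c b p.1 / 2

lemma L1_diff (p : ℝ × ℝ) :
    L1 c b p - L1 c b (h c (-b) p) =
      (1 - 2 * b) * ((p.1 - p.2) + ((h c (-b) p).1 - p.1)) ^ 2 +
      (1 + b + 2 * p.1) * ((h c (-b) p).1 - p.1) ^ 2 := by
  unfold L1 U q h
  ring

lemma L2_diff (p : ℝ × ℝ) :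
    L2 c b p - L2 c b (h c (-b) p) =
      (2 * b - 1) * (((h c (-b) p).1 - p.1) - (p.1 - p.2)) ^ 2 +
      (5 - 7 * b + 2 * p.1) * ((h c (-b) p).1 - p.1) ^ 2 := by
  unfold L2 U q h
  ring

lemma H3_diff (p : ℝ × ℝ) :
    H3 c b p - H3 c b (h c (-b) p) =
      (1 - b) / 2 * ((h c (-b) p).1 - p.1) * ((p.1 - p.2) + ((h c (-b) p).1 - p.1)) -
      ((h c (-b) p).1 - p.1) ^ 3 / 6 := by
  unfold H3 U q h
  ring

end

lemma L1_cont (c b : ℝ) : Continuous (L1 c b) := by unfold L1 U q; fun_prop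
lemma L2_cont (c b : ℝ) : Continuous (L2 c b) := by unfold L2 U q; fun_prop
lemma H3_cont (c b : ℝ) : Continuous (H3 c b) := by unfold H3 U q; fun_prop

lemma fixed_of_zero {c b : ℝ} {z : ℝ × ℝ} (h1 : (h c (-b) z).1 - z.1 = 0) (h2 : z.1 - z.2 = 0) :
    h c (-b) z = z := by
  refine Prod.ext (by linarith) ?_
  show z.1 = z.2
  linarith

/-- if the increments vanish along the whole orbit of a recurrent point, it is fixed -/
lemma fixed_of_incr {c b : ℝ} {z : ℝ × ℝ} (hz : Rec (h c (-b)) z)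
    (h1 : ∀ n, ((h c (-b))^[n+1] z).1 - ((h c (-b))^[n] z).1 = 0) : h c (-b) z = z := by
  have h0 : (h c (-b) z).1 - z.1 = 0 := h1 0
  refine fixed_of_zero h0 ?_
  refine hz.lim (V := fun p : ℝ × ℝ => p.1 - p.2) (by fun_prop) ?_
  refine Filter.Tendsto.congr' ?_ tendsto_const_nhds
  filter_upwards [eventually_ge_atTop 1] with n hn
  obtain ⟨k, rfl⟩ := Nat.exists_eq_add_of_le' hn
  have h2 := h1 k
  show 0 = ((h c (-b))^[k+1] z).1 - ((h c (-b))^[k+1] z).2
  rw [h_iter_snd]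
  exact h2.symm

/-- first Lyapunov function, `b ≤ 1/2` -/
lemma fixed_L1 {c b : ℝ} (hb1 : b ≤ 1 / 2) {z : ℝ × ℝ} (hz : Rec (h c (-b)) z)
    (hK : ∀ p ∈ Orb (h c (-b)) z, 0 < 1 + b + 2 * p.1) : h c (-b) z = z := by
  have hm : ∀ n, -(L1 c b ((h c (-b))^[n] z)) ≤ -(L1 c b ((h c (-b))^[n+1] z)) := by
    intro n
    have h1 := L1_diff c b ((h c (-b))^[n] z)
    have h2 := hK _ (mem_Orb (h c (-b)) z n)
    rw [Function.iterate_succ_apply']
    have h3 := mul_nonneg h2.le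
      (sq_nonneg ((h c (-b) ((h c (-b))^[n] z)).1 - ((h c (-b))^[n] z).1))
    have h4 := mul_nonneg (show 0 ≤ 1 - 2 * b by linarith)
      (sq_nonneg ((((h c (-b))^[n] z).1 - ((h c (-b))^[n] z).2) +
        ((h c (-b) ((h c (-b))^[n] z)).1 - ((h c (-b))^[n] z).1)))
    linarith
  apply fixed_of_incr hz
  intro n
  have hconst := hz.const (h_cont c (-b)) (V := fun p => -(L1 c b p)) ((L1_cont c b).neg) hm n
  have h1 := L1_diff c b ((h c (-b))^[n] z)
  have h2 := hK _ (mem_Orb (h c (-b)) z n)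
  have h0 : L1 c b (h c (-b) ((h c (-b))^[n] z)) = L1 c b ((h c (-b))^[n] z) := by
    have : -(L1 c b ((h c (-b))^[n+1] z)) = -(L1 c b ((h c (-b))^[n] z)) := hconst
    rw [Function.iterate_succ_apply'] at this
    linarith
  rw [h0, sub_self] at h1
  rw [Function.iterate_succ_apply']
  have h3 := mul_nonneg h2.le
      (sq_nonneg ((h c (-b) ((h c (-b))^[n] z)).1 - ((h c (-b))^[n] z).1))
  have h4 := mul_nonneg (show 0 ≤ 1 - 2 * b by linarith)
      (sq_nonneg ((((h c (-b))^[n] z).1 - ((h c (-b))^[n] z).2) +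
        ((h c (-b) ((h c (-b))^[n] z)).1 - ((h c (-b))^[n] z).1)))
  have h5 : (1 + b + 2 * ((h c (-b))^[n] z).1) *
      ((h c (-b) ((h c (-b))^[n] z)).1 - ((h c (-b))^[n] z).1) ^ 2 = 0 := by linarith
  exact pow_eq_zero_iff (two_ne_zero) |>.mp ((mul_eq_zero.mp h5).resolve_left h2.ne')

/-- second Lyapunov function, `b ≥ 1/2` -/
lemma fixed_L2 {c b : ℝ} (hb1 : 1 / 2 ≤ b) {z : ℝ × ℝ} (hz : Rec (h c (-b)) z)
    (hK : ∀ p ∈ Orb (h c (-b)) z, 0 < 5 - 7 * b + 2 * p.1) : h c (-b) z = z := by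
  have hm : ∀ n, -(L2 c b ((h c (-b))^[n] z)) ≤ -(L2 c b ((h c (-b))^[n+1] z)) := by
    intro n
    have h1 := L2_diff c b ((h c (-b))^[n] z)
    have h2 := hK _ (mem_Orb (h c (-b)) z n)
    rw [Function.iterate_succ_apply']
    have h3 := mul_nonneg h2.le
      (sq_nonneg ((h c (-b) ((h c (-b))^[n] z)).1 - ((h c (-b))^[n] z).1))
    have h4 := mul_nonneg (show 0 ≤ 2 * b - 1 by linarith)
      (sq_nonneg (((h c (-b) ((h c (-b))^[n] z)).1 - ((h c (-b))^[n] z).1) -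
        (((h c (-b))^[n] z).1 - ((h c (-b))^[n] z).2)))
    linarith
  apply fixed_of_incr hz
  intro n
  have hconst := hz.const (h_cont c (-b)) (V := fun p => -(L2 c b p)) ((L2_cont c b).neg) hm n
  have h1 := L2_diff c b ((h c (-b))^[n] z)
  have h2 := hK _ (mem_Orb (h c (-b)) z n)
  have h0 : L2 c b (h c (-b) ((h c (-b))^[n] z)) = L2 c b ((h c (-b))^[n] z) := by
    have : -(L2 c b ((h c (-b))^[n+1] z)) = -(L2 c b ((h c (-b))^[n] z)) := hconst
    rw [Function.iterate_succ_apply'] at this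
    linarith
  rw [h0, sub_self] at h1
  rw [Function.iterate_succ_apply']
  have h3 := mul_nonneg h2.le
      (sq_nonneg ((h c (-b) ((h c (-b))^[n] z)).1 - ((h c (-b))^[n] z).1))
  have h4 := mul_nonneg (show 0 ≤ 2 * b - 1 by linarith)
      (sq_nonneg (((h c (-b) ((h c (-b))^[n] z)).1 - ((h c (-b))^[n] z).1) -
        (((h c (-b))^[n] z).1 - ((h c (-b))^[n] z).2)))
  have h5 : (5 - 7 * b + 2 * ((h c (-b))^[n] z).1) *
      ((h c (-b) ((h c (-b))^[n] z)).1 - ((h c (-b))^[n] z).1) ^ 2 = 0 := by linarith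
  exact pow_eq_zero_iff (two_ne_zero) |>.mp ((mul_eq_zero.mp h5).resolve_left h2.ne')

/-- potential difference at the saddle -/
lemma U_diff {c b X x : ℝ} (hX : q c b X = 0) :
    U c b x - U c b X = (X - x) ^ 2 * ((X - x) / 3 - (2 * X - (1 + b)) / 2) := by
  unfold q at hX
  have hc : c = (1 + b) * X - X ^ 2 := by linarith
  unfold U
  rw [hc]
  ring

/-- the energy bound for points with `y ≥ x` -/
lemma energy_bound {c b X : ℝ} (hb0 : 0 < b) (hb1 : b < 1) (hX : q c b X = 0)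
    {K : Set (ℝ × ℝ)} (hK : Inv c (-b) K)
    (hup : ∀ p ∈ K, p.1 ≤ X) {p0 : ℝ × ℝ} (hp0 : p0 ∈ K) (hp0' : p0.1 ≤ p0.2) :
    H3 c b p0 ≤ U c b X := by
  by_contra hcon
  push Not at hcon
  set M : Set (ℝ × ℝ) := K ∩ {p | p.1 ≤ p.2 ∧ H3 c b p0 ≤ H3 c b p} with hM
  have hMcl : IsClosed {p : ℝ × ℝ | p.1 ≤ p.2 ∧ H3 c b p0 ≤ H3 c b p} :=
    (isClosed_le continuous_fst continuous_snd).inter
      (isClosed_le continuous_const (H3_cont c b))
  have hMc : IsCompact M := hK.cpt.inter_right hMcl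
  have hqfac : ∀ x, q c b x = (x - X) * (x - (1 + b - X)) := by
    intro x
    unfold q at hX ⊢
    linarith [show (x - X) * (x - (1 + b - X)) = x ^ 2 - (1 + b) * x - (X ^ 2 - (1 + b) * X) by ring]
  -- backward step
  have hback : ∀ p ∈ M, ∃ w, (p.2, w) ∈ M ∧ p.2 < w := by
    rintro p ⟨hpK, hp1, hp2⟩
    obtain ⟨w, hw, e⟩ := hK.pre hpK
    have hfw : h c (-b) (p.2, w) = p := Prod.ext e.symm rfl
    have hd := H3_diff c b (p.2, w)
    rw [hfw] at hd
    simp only at hd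
    -- δ = p.2 - p.1 ≥ 0, δ' = w - p.2
    have hbd : b * (w - p.2) = (p.2 - p.1) + q c b p.2 := by unfold q; linarith
    have hlt : p.2 < w := by
      by_contra hle
      push Not at hle
      have hq : q c b p.2 ≤ -(p.2 - p.1) := by
        have : b * (w - p.2) ≤ 0 := mul_nonpos_of_nonneg_of_nonpos hb0.le (by linarith)
        linarith
      -- `U(p.2) ≥ H3 p`
      have e1 : U c b p.2 - H3 c b p = (p.2 - p.1) ^ 3 / 6 - b / 2 * (p.2 - p.1) ^ 2 -
          (p.2 - p.1) * q c b p.2 / 2 := by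
        unfold H3 U q; ring
      have e2 : (p.2 - p.1) * q c b p.2 ≤ (p.2 - p.1) * (-(p.2 - p.1)) :=
        mul_le_mul_of_nonneg_left hq (by linarith)
      have e3 : 0 ≤ (p.2 - p.1) ^ 3 := pow_nonneg (by linarith) 3
      have e4 : 0 ≤ (1 - b) * (p.2 - p.1) ^ 2 := mul_nonneg (by linarith) (sq_nonneg _)
      have e5 : H3 c b p ≤ U c b p.2 := by
        have : (p.2 - p.1) * (-(p.2 - p.1)) = -(p.2 - p.1) ^ 2 := by ring
        linarith
      -- `U(p.2) ≤ U X`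
      have hq0 : q c b p.2 ≤ 0 := by linarith
      have hpX : p.2 ≤ X := hup _ hw
      have e6 := U_diff (x := p.2) hX
      have e7 : (X - p.2) ^ 2 * ((X - p.2) / 3 - (2 * X - (1 + b)) / 2) ≤ 0 := by
        rcases hpX.lt_or_eq with hlt | heq
        · have h1 : 0 ≤ p.2 - (1 + b - X) := by
            by_contra hneg
            push Not at hneg
            have := mul_pos_of_neg_of_neg (show p.2 - X < 0 by linarith) hneg
            rw [← hqfac] at this
            linarith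
          exact mul_nonpos_of_nonneg_of_nonpos (sq_nonneg _) (by linarith)
        · rw [heq]; simp
      linarith
    refine ⟨w, ⟨hw, hlt.le, ?_⟩, hlt⟩
    -- energy increases
    have e8 : (1 - b) / 2 * (p.1 - p.2) * (p.2 - w + (p.1 - p.2)) - (p.1 - p.2) ^ 3 / 6 =
        (1 - b) / 2 * ((p.2 - p.1) * ((w - p.2) + (p.2 - p.1))) + (p.2 - p.1) ^ 3 / 6 := by ring
    rw [e8] at hd
    have e9 : 0 ≤ (1 - b) / 2 * ((p.2 - p.1) * ((w - p.2) + (p.2 - p.1))) :=
      mul_nonneg (by linarith) (mul_nonneg (by linarith) (by linarith))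
    have e10 : 0 ≤ (p.2 - p.1) ^ 3 := pow_nonneg (by linarith) 3
    linarith
  obtain ⟨p, hp, hpm⟩ := hMc.exists_isMaxOn ⟨p0, hp0, hp0', le_refl _⟩
    continuous_fst.continuousOn
  obtain ⟨w, hw, hlt⟩ := hback p hp
  obtain ⟨v, hv, hlt2⟩ := hback _ hw
  have h1 := isMaxOn_iff.mp hpm _ hv
  simp only at h1 hv hlt2
  have h2 : p.1 ≤ p.2 := hp.2.1
  linarith

end Pool.Helper62.HN
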