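import Pool.Agent.Helper62.HN.E2

set_option autoImplicit false
open Filter Topology Set

namespace Pool.Helper62.HN

lemma poly1 {b : ℝ} (h1 : 13 / 20 ≤ b) (h2 : b ≤ 1) :
    0 < 5 * b ^ 2 + b * (1 - b) ^ 2 / 2 - 3 * (1 - b) ^ 4 / 16 - 8 * b * (1 - b) := by
  have h3 : 0 ≤ b * (1 - b) ^ 2 := mul_nonneg (by linarith) (sq_nonneg _)
  have h4 : (1 - b) ^ 4 ≤ (7 / 20) ^ 4 := pow_le_pow_left₀ (by linarith) (by linarith) 4
  nlinarith

/-- endpoint estimate of the overshoot analysis -/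
lemma overshoot {b D ζ : ℝ} (h1 : 13 / 20 ≤ b) (h2 : b < 1) (hD0 : 0 ≤ D)
    (hD : D ≤ 2 * (1 - b)) (hζ1 : 6 * (1 - b) - D ≤ 2 * ζ)
    (hζ2 : ζ ≤ b + ((D - (1 - b)) / 2) ^ 2) : 4 * b * D < ζ * (8 * b - 3 * ζ) := by
  obtain ⟨a, rfl⟩ : ∃ a, b = 1 - a := ⟨1 - b, by ring⟩
  have ha' : 1 - (1 - a) = a := by ring
  rw [ha'] at hD hζ1 hζ2
  have ha0 : 0 < a := by linarith
  have ha1 : a ≤ 7 / 20 := by linarith
  -- left end
  obtain ⟨z1, hz1⟩ : ∃ z1, z1 = 3 * a - D / 2 := ⟨_, rfl⟩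
  obtain ⟨z2, hz2⟩ : ∃ z2, z2 = (1 - a) + ((D - a) / 2) ^ 2 := ⟨_, rfl⟩
  have hz1ζ : z1 ≤ ζ := by rw [hz1]; linarith
  have f1 : 4 * (1 - a) * D < z1 * (8 * (1 - a) - 3 * z1) := by
    have f0 : 0 < 3 * a * (8 - 17 * a) := mul_pos (by linarith) (by linarith)
    have f2a : 0 < 4 * a * (2 - 5 * a) := mul_pos (by linarith) (by linarith)
    have hid : 2 * a * (z1 * (8 * (1 - a) - 3 * z1) - 4 * (1 - a) * D) =
        (2 * a - D) * (3 * a * (8 - 17 * a)) + D * (4 * a * (2 - 5 * a)) +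
        3 / 2 * (a * (D * (2 * a - D))) := by rw [hz1]; ring
    have hpos : 0 < 2 * a * (z1 * (8 * (1 - a) - 3 * z1) - 4 * (1 - a) * D) := by
      rw [hid]
      have g1 : 0 ≤ (2 * a - D) * (3 * a * (8 - 17 * a)) := mul_nonneg (by linarith) f0.le
      have g2 : 0 ≤ D * (4 * a * (2 - 5 * a)) := mul_nonneg hD0 f2a.le
      have g3 : 0 ≤ a * (D * (2 * a - D)) :=
        mul_nonneg ha0.le (mul_nonneg hD0 (by linarith))
      rcases hD0.lt_or_eq with hlt | heq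
      · have : 0 < D * (4 * a * (2 - 5 * a)) := mul_pos hlt f2a
        linarith
      · have : 0 < (2 * a - D) * (3 * a * (8 - 17 * a)) := mul_pos (by linarith) f0
        linarith
    have := (mul_pos_iff_of_pos_left (by linarith : 0 < 2 * a)).mp hpos
    linarith
  -- right end
  have f2 : 4 * (1 - a) * D < z2 * (8 * (1 - a) - 3 * z2) := by
    obtain ⟨u, hu⟩ : ∃ u, u = (D - a) / 2 := ⟨_, rfl⟩
    have hDu : D = a + 2 * u := by rw [hu]; ring
    have hu2 : u ≤ a / 2 := by linarith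
    have hu1 : -(a / 2) ≤ u := by linarith
    rw [hz2, ← hu, hDu]
    have hp := poly1 h1 h2.le
    rw [ha'] at hp
    have e : ((1 - a) + u ^ 2) * (8 * (1 - a) - 3 * ((1 - a) + u ^ 2)) -
        4 * (1 - a) * (a + 2 * u) =
        (5 * (1 - a) ^ 2 + (1 - a) * a ^ 2 / 2 - 3 * a ^ 4 / 16 - 8 * (1 - a) * a) +
        (a / 2 - u) * (8 * (1 - a) - 2 * (1 - a) * (a / 2 + u) +
          3 * (a / 2 + u) * (a ^ 2 / 4 + u ^ 2)) := by
      ring
    have g1 : 0 ≤ (a / 2 - u) * (8 * (1 - a) - 2 * (1 - a) * (a / 2 + u) +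
          3 * (a / 2 + u) * (a ^ 2 / 4 + u ^ 2)) := by
      refine mul_nonneg (by linarith) ?_
      have g2 : 0 ≤ 3 * (a / 2 + u) * (a ^ 2 / 4 + u ^ 2) :=
        mul_nonneg (by linarith) (by positivity)
      have g3 : (1 - a) * (a / 2 + u) ≤ (1 - a) * 1 :=
        mul_le_mul_of_nonneg_left (by linarith) (by linarith)
      linarith
    linarith
  rw [← hz2] at hζ2
  -- concavity
  have hc : 0 ≤ (ζ - z1) * (z2 - ζ) := mul_nonneg (by linarith) (by linarith)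
  rcases le_or_gt 0 (8 * (1 - a) - 3 * z1 - 3 * z2) with hs | hs
  · have := mul_nonneg hs (show 0 ≤ ζ - z1 by linarith)
    nlinarith
  · have := mul_nonneg (show 0 ≤ -(8 * (1 - a) - 3 * z1 - 3 * z2) by linarith)
      (show 0 ≤ z2 - ζ by linarith)
    nlinarith

/-- the minimum cannot be low -/
lemma no_low {c b D X l yl : ℝ} (hb6 : 13 / 20 ≤ b) (hlt : b < 1) (hD0 : 0 ≤ D)
    (hD2 : D ≤ 2 * (1 - b)) (hXD : X = ((1 + b) + D) / 2) (hX : q c b X = 0)
    (hcb : c - b * X = (1 - b ^ 2) / 4 - D ^ 2 / 4 - b * D / 2) (hl1 : c - b * X ≤ l)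
    (hll : 5 - 7 * b + 2 * l ≤ 0) (hE : H3 c b (l, yl) ≤ U c b X) : False := by
  have hbpos : 0 < b := by linarith
  have hUd := U_diff (x := l) hX
  have hH : U c b l - (q c b l) ^ 2 / (8 * b) ≤ H3 c b (l, yl) := by
    have : H3 c b (l, yl) = U c b l - (q c b l) ^ 2 / (8 * b) +
        b / 2 * ((yl - l) - q c b l / (2 * b)) ^ 2 := by
      unfold H3
      simp only
      field_simp
      ring
    rw [this]
    have : 0 ≤ b / 2 * ((yl - l) - q c b l / (2 * b)) ^ 2 :=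
      mul_nonneg (by linarith) (sq_nonneg _)
    linarith
  have hDX : 2 * X - (1 + b) = D := by rw [hXD]; ring
  have hql : q c b l = (X - l) * ((X - D) - l) := by
    have hXX := hX
    unfold q at hXX ⊢
    have e1 : (X - l) * ((X - D) - l) = (X - l) * ((1 + b) - X - l) := by rw [← hDX]; ring
    rw [e1]
    have e2 : (X - l) * ((1 + b) - X - l) = l ^ 2 - (1 + b) * l - (X ^ 2 - (1 + b) * X) := by ring
    rw [e2]
    linarith
  obtain ⟨ζ, hζ⟩ : ∃ ζ, ζ = (X - D) - l := ⟨_, rfl⟩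
  rw [← hζ] at hql
  have hξ : X - l = ζ + D := by rw [hζ]; ring
  have hζ1 : 6 * (1 - b) - D ≤ 2 * ζ := by
    have e1 : 2 * ζ = (1 + b - D) - 2 * l := by rw [hζ, hXD]; ring
    rw [e1]
    linarith
  have hζ2 : ζ ≤ b + ((D - (1 - b)) / 2) ^ 2 := by
    have h6 : (X - D) - (c - b * X) = b + ((D - (1 - b)) / 2) ^ 2 := by
      rw [hcb, hXD]; ring
    rw [hζ]; linarith
  have hov := overshoot hb6 hlt hD0 hD2 hζ1 hζ2
  have hζpos : 0 < ζ := by linarith
  have hξpos : 0 < X - l := by rw [hξ]; linarith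
  have hfin : (X - l) ^ 2 * ((X - l) / 3 - D / 2) ≤ (X - l) ^ 2 * (ζ ^ 2 / (8 * b)) := by
    have h8 : U c b l - U c b X ≤ (q c b l) ^ 2 / (8 * b) := by linarith
    rw [hUd, hDX, hql] at h8
    have h9 : ((X - l) * ζ) ^ 2 / (8 * b) = (X - l) ^ 2 * (ζ ^ 2 / (8 * b)) := by ring
    rw [h9] at h8
    exact h8
  have hfin2 := le_of_mul_le_mul_left hfin (by positivity)
  rw [hξ, le_div_iff₀ (by linarith)] at hfin2
  have e5 : ((ζ + D) / 3 - D / 2) * (8 * b) = (8 * b * ζ - 4 * b * D) / 3 := by ring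
  rw [e5] at hfin2
  have e6 : ζ * (8 * b - 3 * ζ) = 8 * b * ζ - 3 * ζ ^ 2 := by ring
  rw [e6] at hov
  linarith

/-- **orientation preserving case**, `1/4 ≤ b ≤ 1` -/
theorem rec_fixed_pos {c b : ℝ} (hb0 : 1 / 4 ≤ b) (hb1 : b ≤ 1)
    (hc : (3 * b - 1) * (3 - b) ≤ 4 * c ∨ (b ≤ 1 / 2 ∧ b - 1 / 2 < c))
    {z : ℝ × ℝ} (hz : Rec (h c (-b)) z) : h c (-b) z = z := by
  have hcont := h_cont c (-b)
  have hbpos : 0 < b := by linarith
  rcases hb1.lt_or_eq with hlt | heq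
  swap
  · -- b = 1
    subst heq
    have hc1 : 1 ≤ c := by
      rcases hc with hc | hc
      · linarith
      · linarith [hc.1]
    have hV : ∀ n, ((h c (-1))^[n+1] z).1 - ((h c (-1))^[n+1] z).2 -
        (((h c (-1))^[n] z).1 - ((h c (-1))^[n] z).2) =
        (((h c (-1))^[n] z).1 - 1) ^ 2 + (c - 1) := by
      intro n
      rw [h_iter_fst, h_iter_snd]; ring
    have hm : ∀ n, (fun p : ℝ × ℝ => p.1 - p.2) ((h c (-1))^[n] z) ≤
        (fun p : ℝ × ℝ => p.1 - p.2) ((h c (-1))^[n+1] z) := by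
      intro n
      have := hV n
      have h2 := sq_nonneg (((h c (-1))^[n] z).1 - 1)
      simp only
      linarith
    apply fixed_of_incr hz
    have hz0 : ∀ n, ((h c (-1))^[n] z).1 = 1 := by
      intro n
      have := hz.const hcont (V := fun p : ℝ × ℝ => p.1 - p.2) (by fun_prop) hm n
      have h1 := hV n
      have h2 := sq_nonneg (((h c (-1))^[n] z).1 - 1)
      have h3 : (((h c (-1))^[n] z).1 - 1) ^ 2 = 0 := by linarith
      have := pow_eq_zero_iff (two_ne_zero) |>.mp h3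
      linarith
    intro n
    rw [hz0, hz0, sub_self]
  -- b < 1
  have hK := Orb_inv hz
  have hne : (Orb (h c (-b)) z).Nonempty := ⟨z, self_mem_Orb _ _⟩
  obtain ⟨l, L, hb, ⟨yl, hyl⟩, ⟨yL, hyL⟩⟩ := hK.bounds hne
  have hqL : L ^ 2 - (1 + b) * L + c ≤ 0 := by
    have h1 := (hb _ (hK.maps _ hyL)).2.1
    have h2 := (hb _ hyL).2.2.2
    simp only at h2
    have h3 : (h c (-b) (L, yL)).1 = L ^ 2 + c + (-b) * yL := rfl
    rw [h3] at h1
    have h4 : b * yL ≤ b * L := mul_le_mul_of_nonneg_left h2 hbpos.le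
    linarith
  have hdisc : 0 ≤ (1 + b) ^ 2 - 4 * c := by nlinarith [sq_nonneg (2 * L - (1 + b))]
  obtain ⟨D, hD0, hD⟩ : ∃ D : ℝ, 0 ≤ D ∧ D ^ 2 = (1 + b) ^ 2 - 4 * c :=
    ⟨Real.sqrt ((1 + b) ^ 2 - 4 * c), Real.sqrt_nonneg _, Real.sq_sqrt hdisc⟩
  obtain ⟨X, hXD⟩ : ∃ X : ℝ, X = ((1 + b) + D) / 2 := ⟨_, rfl⟩
  have hX : q c b X = 0 := by unfold q; rw [hXD]; nlinarith
  have hX2 : 1 + b ≤ 2 * X := by rw [hXD]; linarith
  have hLX : L ≤ X := by
    by_contra hl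
    push Not at hl
    have h1 : 0 < (L - X) * (L - (1 + b - X)) := mul_pos (by linarith) (by linarith)
    unfold q at hX
    nlinarith
  have hup : ∀ p ∈ Orb (h c (-b)) z, p.1 ≤ X := fun p hp => by
    have := (hb p hp).2.1; linarith
  -- lower bound
  have hl1 : c - b * X ≤ l := by
    obtain ⟨w, hw, e⟩ := hK.pre hyl
    simp only at hw e
    have h1 := (hb _ hw).2.2.2
    simp only at h1
    have h2 : b * w ≤ b * X := mul_le_mul_of_nonneg_left (by linarith) hbpos.le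
    nlinarith [sq_nonneg yl]
  have hcb : c - b * X = (1 - b ^ 2) / 4 - D ^ 2 / 4 - b * D / 2 := by
    rw [hXD, hD]; ring
  rcases le_or_gt b (1 / 2) with hb2 | hb2
  · -- `b ≤ 1/2`
    have hc' : b - 1 / 2 < c := by
      rcases hc with hc | hc
      · nlinarith
      · exact hc.2
    have hD3 : D ^ 2 < (1 - b) ^ 2 + 2 := by rw [hD]; nlinarith
    have hD4 : D < 2 - b := by
      by_contra hle
      push Not at hle
      have : (2 - b) ^ 2 ≤ D ^ 2 := pow_le_pow_left₀ (by linarith) hle 2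
      nlinarith
    have hD5 : b * D ≤ b * (2 - b) := mul_le_mul_of_nonneg_left hD4.le hbpos.le
    apply fixed_L1 hb2 hz
    intro p hp
    have h1 := (hb p hp).1
    have h2 : 0 < 1 + b + 2 * (c - b * X) := by
      rw [hcb]
      nlinarith
    linarith
  -- `b > 1/2`
  have hc' : (3 * b - 1) * (3 - b) ≤ 4 * c := by
    rcases hc with hc | hc
    · exact hc
    · linarith [hc.1]
  have hD2 : D ≤ 2 * (1 - b) := by
    have h1 : D ^ 2 ≤ (2 * (1 - b)) ^ 2 := by rw [hD]; nlinarith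
    exact (pow_le_pow_iff_left₀ hD0 (by linarith) two_ne_zero).mp h1
  have hDD : D ^ 2 + 2 * b * D ≤ 4 * (1 - b) := by
    have h1 : D * (D + 2 * b) ≤ 2 * (1 - b) * (2 * (1 - b) + 2 * b) :=
      mul_le_mul hD2 (by linarith) (by linarith) (by linarith)
    nlinarith
  rcases le_or_gt b (13 / 20) with hb6 | hb6
  · apply fixed_L2 hb2.le hz
    intro p hp
    have h1 := (hb p hp).1
    have h2 : 0 < 5 - 7 * b + 2 * (c - b * X) := by
      rw [hcb]
      nlinarith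
    linarith
  · apply fixed_L2 hb2.le hz
    intro p hp
    by_contra hcon
    push Not at hcon
    have h1 := (hb p hp).1
    have hll : 5 - 7 * b + 2 * l ≤ 0 := by linarith
    have hyl2 : l ≤ yl := (hb _ hyl).2.2.1
    have hE := energy_bound hbpos hlt hX hK hup hyl hyl2
    exact no_low hb6.le hlt hD0 hD2 hXD hX hcb hl1 hll hE

end Pool.Helper62.HN
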