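import Pool.Agent.Helper62.HN.G

set_option autoImplicit false
open Filter Topology Set

namespace Pool.Helper62.HN

lemma root_facts {κ : ℝ} (hκ : 1 < κ) (hκ2 : κ ≤ 5 / 4) :
    ∃ r : ℝ, 1 < r ∧ r ^ 2 = κ ∧ (κ ^ 2 - κ) ^ 2 - κ < -r := by
  refine ⟨Real.sqrt κ, ?_, Real.sq_sqrt (by linarith), ?_⟩
  · rw [Real.lt_sqrt (by norm_num)]; linarith
  · set r := Real.sqrt κ with hr
    have hrκ : r ^ 2 = κ := Real.sq_sqrt (by linarith)
    have hr1 : 1 < r := by rw [hr, Real.lt_sqrt (by norm_num)]; linarith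
    have hr2 : r ≤ 28 / 25 := by
      by_contra hlt
      push Not at hlt
      nlinarith
    have e1 : (κ ^ 2 - κ) ^ 2 - κ + r = -(r * (r - 1)) * (1 - r ^ 3 * (r - 1) * (r + 1) ^ 2) := by
      rw [← hrκ]; ring
    have h3 : r ^ 3 ≤ (28 / 25) ^ 3 := pow_le_pow_left₀ (by linarith) hr2 3
    have h4 : (r + 1) ^ 2 ≤ (53 / 25) ^ 2 := pow_le_pow_left₀ (by linarith) (by linarith) 2
    have h5 : r ^ 3 * (r - 1) ≤ (28 / 25) ^ 3 * (3 / 25) :=
      mul_le_mul h3 (by linarith) (by linarith) (by norm_num)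
    have h6 : r ^ 3 * (r - 1) * (r + 1) ^ 2 ≤ (28 / 25) ^ 3 * (3 / 25) * (53 / 25) ^ 2 :=
      mul_le_mul h5 h4 (by positivity) (by norm_num)
    have h7 : (28 / 25 : ℝ) ^ 3 * (3 / 25) * (53 / 25) ^ 2 < 1 := by norm_num
    have h8 : 0 < (r * (r - 1)) * (1 - r ^ 3 * (r - 1) * (r + 1) ^ 2) :=
      mul_pos (mul_pos (by linarith) (by linarith)) (by linarith)
    linarith

lemma g_iter_snd (c B : ℝ) (z : ℝ × ℝ) (k : ℕ) :
    ((g c B)^[k] z).2 = ((h c B)^[2 * k] z).2 := by rw [g_iter]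

lemma g_iter_fst (c B : ℝ) (z : ℝ × ℝ) (k : ℕ) :
    ((g c B)^[k] z).1 = ((h c B)^[2 * k + 1] z).2 := by rw [g_iter, h_iter_snd]

/-- some positive value at an even place -/
lemma stepNe {t κ : ℝ} (ht : 0 < t) (ht1 : t < 1) (hκ : 1 < κ) (hκ2 : κ ≤ 5 / 4)
    {z : ℝ × ℝ} (hz : Rec (g (-(κ * t ^ 2)) (1 - t)) z)
    (hbd : ∀ n, -(κ * t) ≤ ((h (-(κ * t ^ 2)) (1 - t))^[n] z).2 ∧
      ((h (-(κ * t ^ 2)) (1 - t))^[n] z).2 ≤ (κ ^ 2 - κ) * t)
    (hpos : ∃ k, 0 < ((h (-(κ * t ^ 2)) (1 - t))^[2 * k] z).2) :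
    g (-(κ * t ^ 2)) (1 - t) z = z := by
  set c := -(κ * t ^ 2) with hc
  set B := 1 - t with hBt
  have hcont := g_cont c B
  obtain ⟨r, hr1, hrκ, hr⟩ := root_facts hκ hκ2
  set s : ℕ → ℝ := fun n => ((h c B)^[n] z).2 with hs
  have hrec : ∀ n, s (n+2) = s (n+1) ^ 2 + c + B * s n := by
    intro n
    show ((h c B)^[n+2] z).2 = _
    rw [h_iter_snd, h_iter_fst]
    show ((h c B)^[n] z).1 ^ 2 + c + B * ((h c B)^[n] z).2 =
      ((h c B)^[n+1] z).2 ^ 2 + c + B * ((h c B)^[n] z).2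
    rw [h_iter_snd]
  have hbd' : ∀ n, -(κ * t) ≤ s n ∧ s n ≤ (κ ^ 2 - κ) * t := hbd
  have hκκ : κ ^ 2 - κ ≤ 5 / 16 := by nlinarith
  have hκκ0 : 0 < κ ^ 2 - κ := by nlinarith
  have hB0 : 0 < B := by rw [hBt]; linarith
  have hrt : 0 < r * t := by positivity
  have htrans : ∀ m, s m ≤ 0 → 0 < s (m+2) → ∀ k, 0 < s (m+2+2*k) ∧ s (m+1+2*k) < -(r * t) := by
    intro m h1 h2 k
    induction k with
    | zero =>
      refine ⟨h2, ?_⟩
      have e := hrec m
      have h3 : B * s m ≤ 0 := mul_nonpos_of_nonneg_of_nonpos hB0.le h1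
      have h4 : (r * t) ^ 2 < s (m+1) ^ 2 := by
        have : (r * t) ^ 2 = κ * t ^ 2 := by rw [mul_pow, hrκ]
        rw [this]; rw [e] at h2; linarith
      have h5 := (hbd' (m+1)).2
      by_contra hle
      push Not at hle
      have h6 : (κ ^ 2 - κ) * t ≤ r * t := mul_le_mul_of_nonneg_right (by linarith) ht.le
      have : s (m+1) ^ 2 ≤ (r * t) ^ 2 := sq_le_sq' hle (by linarith)
      linarith
    | succ k ih =>
      obtain ⟨i1, i2⟩ := ih
      have e1 : s (m+1+2*(k+1)) = s (m+2+2*k) ^ 2 + c + B * s (m+1+2*k) := by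
        have := hrec (m+1+2*k)
        have x1 : m+1+2*k+2 = m+1+2*(k+1) := by ring
        have x2 : m+1+2*k+1 = m+2+2*k := by ring
        rw [x1, x2] at this
        exact this
      have e2 : s (m+2+2*(k+1)) = s (m+1+2*(k+1)) ^ 2 + c + B * s (m+2+2*k) := by
        have := hrec (m+2+2*k)
        have x1 : m+2+2*k+2 = m+2+2*(k+1) := by ring
        have x2 : m+2+2*k+1 = m+1+2*(k+1) := by ring
        rw [x1, x2] at this
        exact this
      have j1 : s (m+1+2*(k+1)) < -(r * t) := by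
        rw [e1]
        have h5 := (hbd' (m+2+2*k)).2
        have h6 : s (m+2+2*k) ^ 2 ≤ ((κ ^ 2 - κ) * t) ^ 2 := pow_le_pow_left₀ i1.le h5 2
        have h7 : B * s (m+1+2*k) < B * (-(r * t)) := mul_lt_mul_of_pos_left i2 hB0
        have h8 : ((κ ^ 2 - κ) * t) ^ 2 + c < -r * t ^ 2 := by
          have : ((κ ^ 2 - κ) * t) ^ 2 + c = ((κ ^ 2 - κ) ^ 2 - κ) * t ^ 2 := by rw [hc]; ring
          rw [this]
          exact mul_lt_mul_of_pos_right hr (by positivity)
        have h9 : -r * t ^ 2 + B * (-(r * t)) = -(r * t) := by rw [hBt]; ring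
        linarith
      refine ⟨?_, j1⟩
      rw [e2]
      have h10 : (r * t) ^ 2 < s (m+1+2*(k+1)) ^ 2 := by nlinarith
      have h11 : (r * t) ^ 2 = κ * t ^ 2 := by rw [mul_pow, hrκ]
      have h12 : 0 < B * s (m+2+2*k) := mul_pos hB0 i1
      rw [h11] at h10
      rw [hc]; linarith
  -- all even values are nonnegative
  have hall : ∀ k, 0 ≤ s (2 * k) := by
    by_contra hno
    push Not at hno
    obtain ⟨j, hj⟩ := hno
    obtain ⟨k0, hk0⟩ := hpos
    have hneg : ∀ N, ∃ k, N ≤ k ∧ s (2 * k) < 0 := by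
      intro N
      have hU : {w : ℝ × ℝ | w.2 < 0} ∈ 𝓝 ((g c B)^[j] z) :=
        (isOpen_lt continuous_snd continuous_const).mem_nhds (by
          show ((g c B)^[j] z).2 < 0
          rw [g_iter_snd]; exact hj)
      obtain ⟨n, hn, hmem⟩ := frequently_atTop.mp ((hz.iter hcont j) _ hU) N
      refine ⟨n + j, by omega, ?_⟩
      have : ((g c B)^[n] ((g c B)^[j] z)).2 < 0 := hmem
      rw [← Function.iterate_add_apply, g_iter_snd] at this
      exact this
    have hpos' : ∀ N, ∃ k, N ≤ k ∧ 0 < s (2 * k) := by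
      intro N
      have hU : {w : ℝ × ℝ | 0 < w.2} ∈ 𝓝 ((g c B)^[k0] z) :=
        (isOpen_lt continuous_const continuous_snd).mem_nhds (by
          show 0 < ((g c B)^[k0] z).2
          rw [g_iter_snd]; exact hk0)
      obtain ⟨n, hn, hmem⟩ := frequently_atTop.mp ((hz.iter hcont k0) _ hU) N
      refine ⟨n + k0, by omega, ?_⟩
      have : 0 < ((g c B)^[n] ((g c B)^[k0] z)).2 := hmem
      rw [← Function.iterate_add_apply, g_iter_snd] at this
      exact this
    obtain ⟨k1, -, hk1⟩ := hneg 0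
    obtain ⟨k2, hk2, hk2'⟩ := hpos' k1
    -- a transition
    have htr : ∃ m, s (2 * m) ≤ 0 ∧ 0 < s (2 * m + 2) := by
      by_contra hno
      push Not at hno
      have : ∀ k, s (2 * (k1 + k)) ≤ 0 := by
        intro k
        induction k with
        | zero => exact hk1.le
        | succ k ih => exact hno (k1 + k) ih
      obtain ⟨d, rfl⟩ := Nat.exists_eq_add_of_le hk2
      linarith [this d]
    obtain ⟨m, hm1, hm2⟩ := htr
    have hfor := htrans (2 * m) hm1 hm2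
    obtain ⟨k3, hk3, hk3'⟩ := hneg (m + 1)
    obtain ⟨d, rfl⟩ := Nat.exists_eq_add_of_le hk3
    have := (hfor d).1
    have e : 2 * m + 2 + 2 * d = 2 * (m + 1 + d) := by ring
    rw [e] at this
    linarith
  apply stepN0 ht ht1 hκ hκ2 hz
  intro w hw
  have hcl : IsClosed {w : ℝ × ℝ | -(κ * t) ≤ w.1 ∧ w.1 ≤ (κ ^ 2 - κ) * t ∧ 0 ≤ w.2 ∧
      w.2 ≤ (κ ^ 2 - κ) * t} := by
    refine (isClosed_le continuous_const continuous_fst).inter
      ((isClosed_le continuous_fst continuous_const).inter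
        ((isClosed_le continuous_const continuous_snd).inter
          (isClosed_le continuous_snd continuous_const)))
  have hsub : (range fun n => (g c B)^[n] z) ⊆ {w : ℝ × ℝ | -(κ * t) ≤ w.1 ∧
      w.1 ≤ (κ ^ 2 - κ) * t ∧ 0 ≤ w.2 ∧ w.2 ≤ (κ ^ 2 - κ) * t} := by
    rintro _ ⟨k, rfl⟩
    show -(κ * t) ≤ ((g c B)^[k] z).1 ∧ ((g c B)^[k] z).1 ≤ (κ ^ 2 - κ) * t ∧
      0 ≤ ((g c B)^[k] z).2 ∧ ((g c B)^[k] z).2 ≤ (κ ^ 2 - κ) * t
    rw [g_iter_fst, g_iter_snd]
    exact ⟨(hbd' _).1, (hbd' _).2, hall k, (hbd' _).2⟩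
  exact closure_minimal hsub hcl hw

lemma g_h_comm (c B : ℝ) (p : ℝ × ℝ) : g c B (h c B p) = h c B (g c B p) := rfl

lemma h_inj' {c B : ℝ} (hB : B ≠ 0) : Function.Injective (h c B) := by
  intro p q e
  have e1 : p.1 ^ 2 + c + B * p.2 = q.1 ^ 2 + c + B * q.2 := congrArg Prod.fst e
  have e2 : p.1 = q.1 := congrArg Prod.snd e
  rw [e2] at e1
  have e3 : B * p.2 = B * q.2 := by linarith
  exact Prod.ext e2 (mul_left_cancel₀ hB e3)

lemma Rec.g_map {c B : ℝ} {z : ℝ × ℝ} (hz : Rec (g c B) z) : Rec (g c B) (h c B z) := by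
  intro U hU
  have := hz (h c B ⁻¹' U) ((h_cont c B).continuousAt.preimage_mem_nhds hU)
  refine this.mono fun n hn => ?_
  have hcomm : (g c B)^[n] (h c B z) = h c B ((g c B)^[n] z) := by
    have : Function.Semiconj (h c B) (g c B) (g c B) := fun p => rfl
    exact ((this.iterate_right n) z).symm
  rw [hcomm]
  exact hn

/-- some positive value -/
lemma stepN {t κ : ℝ} (ht : 0 < t) (ht1 : t < 1) (hκ : 1 < κ) (hκ2 : κ ≤ 5 / 4)
    {z : ℝ × ℝ} (hz : Rec (g (-(κ * t ^ 2)) (1 - t)) z)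
    (hbd : ∀ n, -(κ * t) ≤ ((h (-(κ * t ^ 2)) (1 - t))^[n] z).2 ∧
      ((h (-(κ * t ^ 2)) (1 - t))^[n] z).2 ≤ (κ ^ 2 - κ) * t)
    (hpos : ∃ n, 0 < ((h (-(κ * t ^ 2)) (1 - t))^[n] z).2) :
    g (-(κ * t ^ 2)) (1 - t) z = z := by
  obtain ⟨n, hn⟩ := hpos
  rcases Nat.even_or_odd' n with ⟨k, rfl | rfl⟩
  · exact stepNe ht ht1 hκ hκ2 hz hbd ⟨k, hn⟩
  · have h1 : g (-(κ * t ^ 2)) (1 - t) (h (-(κ * t ^ 2)) (1 - t) z) =
        h (-(κ * t ^ 2)) (1 - t) z := by
      refine stepNe ht ht1 hκ hκ2 hz.g_map ?_ ⟨k, ?_⟩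
      · intro n
        rw [← Function.iterate_succ_apply]
        exact hbd (n+1)
      · rw [← Function.iterate_succ_apply]
        exact hn
    rw [g_h_comm] at h1
    exact h_inj' (by linarith) h1

/-- **main topological statement**, `0 < B ≤ 1`, `c ≥ -(5/4)(1-B)^2` -/
theorem rec_period_two' {c B : ℝ} (hB : 0 < B) (hB1 : B ≤ 1) (hc : -(5 / 4 * (1 - B) ^ 2) ≤ c)
    {z : ℝ × ℝ} (hz : Rec (g c B) z) : g c B z = z := by
  have hzf := hz.of_g
  by_cases hc1 : -(1 - B) ^ 2 ≤ c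
  · exact rec_period_two hB hB1 hc1 hzf
  push Not at hc1
  have hc0 : c < 0 := by nlinarith [sq_nonneg (1 - B)]
  have hBlt : B < 1 := by
    rcases hB1.lt_or_eq with h1 | h1
    · exact h1
    · subst h1; norm_num at hc; linarith
  obtain ⟨t, rfl⟩ : ∃ t, B = 1 - t := ⟨1 - B, by ring⟩
  have ht : 0 < t := by linarith
  have ht1 : t < 1 := by linarith
  have ht2 : 0 < t ^ 2 := by positivity
  obtain ⟨κ, rfl⟩ : ∃ κ, c = -(κ * t ^ 2) := ⟨-c / t ^ 2, by field_simp⟩
  have e1 : 1 - (1 - t) = t := by ring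
  rw [e1] at hc hc1
  have hκ : 1 < κ := by
    by_contra hle
    push Not at hle
    nlinarith
  have hκ2 : κ ≤ 5 / 4 := by
    by_contra hlt
    push Not at hlt
    nlinarith
  set c := -(κ * t ^ 2) with hcdef
  set B := 1 - t with hBt
  have hX' : 0 ≤ t ^ 2 - 4 * c := by rw [hcdef]; nlinarith
  obtain ⟨X, hX, hX2⟩ : ∃ X : ℝ, X ^ 2 + c + B * X = X ∧ t < 2 * X := by
    refine ⟨(t + Real.sqrt (t ^ 2 - 4 * c)) / 2, ?_, ?_⟩
    · have := Real.sq_sqrt hX'
      rw [hBt]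
      nlinarith
    · have := Real.sqrt_pos.mpr (show 0 < t ^ 2 - 4 * c by rw [hcdef]; nlinarith)
      linarith
  have hX0 : 0 < X := by linarith
  have hXq : X * (X - t) = κ * t ^ 2 := by rw [hBt, hcdef] at hX; nlinarith
  have hXt : t < X := by
    by_contra hle
    push Not at hle
    have : X * (X - t) ≤ 0 := mul_nonpos_of_nonneg_of_nonpos hX0.le (by linarith)
    nlinarith
  have hXκ : κ * t < X := by
    by_contra hle
    push Not at hle
    have h1 : X * (X - t) ≤ (κ * t) * (κ * t - t) :=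
      mul_le_mul hle (by linarith) (by linarith) (by positivity)
    have h2 : (κ * t) * (κ * t - t) = κ * (κ - 1) * t ^ 2 := by ring
    have h3 : κ * (κ - 1) * t ^ 2 < κ * t ^ 2 := by
      have : κ * (κ - 1) < κ := by nlinarith
      exact mul_lt_mul_of_pos_right this ht2
    linarith
  have hK := Orb_inv hzf
  have hne : (Orb (h c B) z).Nonempty := ⟨z, self_mem_Orb _ _⟩
  obtain ⟨l, L, hb, ⟨yl, hyl⟩, ⟨yL, hyL⟩⟩ := hK.bounds hne
  have hl1 : -(κ * t) ≤ l := by
    obtain ⟨w, hw, e⟩ := hK.pre hyl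
    simp only at hw e
    have h1 := (hb _ hw).2.2.1
    simp only at h1
    have h2 : B * l ≤ B * w := mul_le_mul_of_nonneg_left h1 hB.le
    have h3 : c ≤ t * l := by
      rw [hBt] at h2 e
      nlinarith [sq_nonneg yl]
    by_contra hlt
    push Not at hlt
    have h4 : t * l < t * (-(κ * t)) := mul_lt_mul_of_pos_left hlt ht
    rw [hcdef] at h3
    nlinarith
  by_cases hL0 : L ≤ 0
  · apply stepD hB.le hzf
    intro n
    have := (hb _ (mem_Orb (h c B) z n)).2.2.2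
    linarith
  push Not at hL0
  by_cases hyl2 : -L ≤ yL
  · have hLX : X ≤ L := by
      obtain ⟨w, hw, e⟩ := hK.pre hyL
      simp only at hw e
      have h2 := (hb _ hw).2.1
      have h3 := (hb _ hw).2.2.2
      simp only at h2 h3
      have hBw : B * w ≤ B * L := mul_le_mul_of_nonneg_left h3 hB.le
      have h4 : yL ^ 2 ≤ L ^ 2 := sq_le_sq' hyl2 h2
      have h5 : 0 ≤ L ^ 2 - t * L + c := by rw [hBt] at hBw e; linarith
      by_contra hlt
      push Not at hlt
      have h6 : (L - X) * (L - (t - X)) < 0 :=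
        mul_neg_of_neg_of_pos (by linarith) (by linarith)
      rw [hcdef] at h5
      nlinarith
    have hlow : ∀ p ∈ Orb (h c B) z, -X < p.2 := fun p hp => by
      have := (hb p hp).2.2.1; linarith
    have hX2' : 1 - B ≤ 2 * X := by rw [hBt]; linarith
    obtain ⟨hup, hup2⟩ := stepC hB hB1 hX0 hX hX2' hK hlow
    have hLeq : L = X := le_antisymm (hup _ hyL) hLX
    have hyLX : yL = X := hup2 _ hyL hLeq
    have hmem : (X, X) ∈ Orb (h c B) z := by
      rw [hLeq, hyLX] at hyL; exact hyL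
    have hzX : z = (X, X) := by
      apply stepC2 hB hX0 hX (by rw [hBt]; linarith) hzf _ hmem
      intro p hp
      obtain ⟨h1, h2, h3, h4⟩ := hb p hp
      exact ⟨by linarith, by linarith, by linarith⟩
    have hfix : h c B z = z := by
      rw [hzX]
      exact Prod.ext hX rfl
    show h c B (h c B z) = z
    rw [hfix, hfix]
  · push Not at hyl2
    have hLb : L ≤ (κ ^ 2 - κ) * t := by
      obtain ⟨w, hw, e⟩ := hK.pre hyL
      simp only at hw e
      have h1 := (hb _ hw).1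
      have h3 := (hb _ hw).2.2.2
      simp only at h1 h3
      have hBw : B * w ≤ B * L := mul_le_mul_of_nonneg_left h3 hB.le
      have h4 : yL ^ 2 ≤ (κ * t) ^ 2 := sq_le_sq' (by linarith) (by
        have : 0 < κ * t := by positivity
        linarith)
      have h5 : t * L ≤ t * ((κ ^ 2 - κ) * t) := by
        rw [hBt] at hBw e
        rw [hcdef] at e
        nlinarith
      exact le_of_mul_le_mul_left h5 ht
    apply stepN ht ht1 hκ hκ2 hz
    · intro n
      have := hb _ (mem_Orb (h c B) z n)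
      exact ⟨by linarith [this.2.2.1], by linarith [this.2.2.2]⟩
    · -- some orbit value is positive, otherwise `L ≤ 0`
      by_contra hno
      push Not at hno
      have hcl : IsClosed {w : ℝ × ℝ | w.2 ≤ 0} := isClosed_le continuous_snd continuous_const
      have hsub : (range fun n => (h c B)^[n] z) ⊆ {w : ℝ × ℝ | w.2 ≤ 0} := by
        rintro _ ⟨n, rfl⟩
        exact hno n
      have hall := closure_minimal hsub hcl
      have h1 := hall (hK.maps _ hyL)
      have h2 : L ≤ 0 := h1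
      linarith

end Pool.Helper62.HN
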