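import Pool.Agent.Helper62.HN.E3
import Pool.Agent.Helper62.HN.H

set_option autoImplicit false
open Filter Topology Set MeasureTheory

namespace Pool.Helper62.HN

/-- almost every point of a finite invariant measure is recurrent -/
lemma ae_rec {f : ℝ × ℝ → ℝ × ℝ} (hf : Continuous f) (μ : Measure (ℝ × ℝ)) [IsProbabilityMeasure μ]
    (hμ : μ.map f = μ) : ∀ᵐ z ∂μ, Rec f z := by
  have hmp : MeasurePreserving f μ μ := ⟨hf.measurable, hμ⟩
  exact hmp.conservative.ae_frequently_mem_of_mem_nhds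

/-- the reversing conjugacy -/
noncomputable def S (b : ℝ) (p : ℝ × ℝ) : ℝ × ℝ := (p.2 / b, p.1 / b)

lemma S_cont (b : ℝ) : Continuous (S b) := by unfold S; fun_prop

lemma S_inj {b : ℝ} (hb : b ≠ 0) : Function.Injective (S b) := by
  intro p q e
  have e1 : p.2 / b = q.2 / b := congrArg Prod.fst e
  have e2 : p.1 / b = q.1 / b := congrArg Prod.snd e
  refine Prod.ext ?_ ?_
  · field_simp at e2; exact e2
  · field_simp at e1; exact e1

lemma S_conj {b c : ℝ} (hb : b ≠ 0) (p : ℝ × ℝ) :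
    h (c / b ^ 2) (-(1 / b)) (S b (h c (-b) p)) = S b p := by
  refine Prod.ext ?_ ?_
  · show (p.1 / b) ^ 2 + c / b ^ 2 + (-(1 / b)) * ((p.1 ^ 2 + c + (-b) * p.2) / b) = p.2 / b
    field_simp
    ring
  · rfl

lemma h_inj {c B : ℝ} (hB : B ≠ 0) : Function.Injective (h c B) := by
  intro p q e
  have e1 : p.1 ^ 2 + c + B * p.2 = q.1 ^ 2 + c + B * q.2 := congrArg Prod.fst e
  have e2 : p.1 = q.1 := congrArg Prod.snd e
  rw [e2] at e1
  have e3 : B * p.2 = B * q.2 := by linarith
  exact Prod.ext e2 (mul_left_cancel₀ hB e3)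

lemma map_S {b c : ℝ} (hb : b ≠ 0) (μ : Measure (ℝ × ℝ)) (hμ : μ.map (h c (-b)) = μ) :
    (μ.map (S b)).map (h (c / b ^ 2) (-(1 / b))) = μ.map (S b) := by
  have m1 := (h_cont c (-b)).measurable
  have m2 := (h_cont (c / b ^ 2) (-(1 / b))).measurable
  have m3 := (S_cont b).measurable
  have e : (h (c / b ^ 2) (-(1 / b))) ∘ (S b) ∘ (h c (-b)) = S b := by
    funext p; exact S_conj hb p
  calc (μ.map (S b)).map (h (c / b ^ 2) (-(1 / b)))
      = ((μ.map (h c (-b))).map (S b)).map (h (c / b ^ 2) (-(1 / b))) := by rw [hμ]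
    _ = μ.map ((h (c / b ^ 2) (-(1 / b))) ∘ (S b) ∘ (h c (-b))) := by
        rw [Measure.map_map m3 m1, Measure.map_map m2 (m3.comp m1)]
    _ = μ.map (S b) := by rw [e]

lemma map_g {b c : ℝ} (μ : Measure (ℝ × ℝ)) (hμ : μ.map (h c b) = μ) :
    μ.map (g c b) = μ := by
  have m1 := (h_cont c b).measurable
  have e : g c b = (h c b) ∘ (h c b) := rfl
  rw [e, ← Measure.map_map m1 m1, hμ, hμ]

/-- orientation reversing: almost every point has period at most two -/
theorem ae_period_two {b c : ℝ} (hb : b < 0) (hc : -(5 / 4 * (1 + b) ^ 2) ≤ c)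
    (μ : Measure (ℝ × ℝ)) [IsProbabilityMeasure μ] (hμ : μ.map (h c (-b)) = μ) :
    ∀ᵐ z ∂μ, h c (-b) (h c (-b) z) = z := by
  rcases le_or_gt (-1) b with h1 | h1
  · filter_upwards [ae_rec (g_cont c (-b)) μ (map_g μ hμ)] with z hz
    refine rec_period_two' (by linarith) (by linarith) ?_ hz
    have : (1 - -b) = 1 + b := by ring
    rw [this]; exact hc
  · have hb0 : b ≠ 0 := hb.ne
    have m3 := (S_cont b).measurable
    have : IsProbabilityMeasure (μ.map (S b)) := Measure.isProbabilityMeasure_map m3.aemeasurable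
    have h2 := ae_rec (g_cont (c / b ^ 2) (-(1 / b))) (μ.map (S b)) (map_g _ (map_S hb0 μ hμ))
    have h3 : ∀ᵐ z ∂(μ.map (S b)), g (c / b ^ 2) (-(1 / b)) z = z := by
      filter_upwards [h2] with z hz
      have g0 : 0 < -(1 / b) := by
        rw [neg_pos]; exact one_div_neg.mpr hb
      have g1 : -(1 / b) ≤ 1 := by
        rw [neg_le, le_div_iff_of_neg hb]
        linarith
      refine rec_period_two' g0 g1 ?_ hz
      rw [le_div_iff₀ (by positivity)]
      have : -(5 / 4 * (1 - -(1 / b)) ^ 2) * b ^ 2 = -(5 / 4 * (1 + b) ^ 2) := by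
        field_simp
        ring
      rw [this]
      exact hc
    have h4 := ae_of_ae_map m3.aemeasurable h3
    filter_upwards [h4] with z hz
    have e1 := S_conj (c := c) hb0 z
    have e2 := S_conj (c := c) hb0 (h c (-b) z)
    have hB : -(1 / b) ≠ 0 := by
      rw [neg_ne_zero]; exact one_div_ne_zero hb0
    have e3 : h (c / b ^ 2) (-(1 / b)) (h (c / b ^ 2) (-(1 / b)) (S b (h c (-b) (h c (-b) z)))) =
        S b z := by rw [e2, e1]
    have e4 := (h_inj (c := c / b ^ 2) hB) ((h_inj (c := c / b ^ 2) hB) (e3.trans hz.symm))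
    exact S_inj hb0 e4

/-- orientation preserving: almost every point is fixed -/
theorem ae_fixed {b c : ℝ} (hb1 : 1 / 4 ≤ b) (hb2 : b ≤ 4)
    (hc : (3 * b - 1) * (3 - b) ≤ 4 * c ∨ (b ≤ 1 / 2 ∧ b - 1 / 2 < c) ∨
      (2 ≤ b ∧ b - b ^ 2 / 2 < c))
    (μ : Measure (ℝ × ℝ)) [IsProbabilityMeasure μ] (hμ : μ.map (h c (-b)) = μ) :
    ∀ᵐ z ∂μ, h c (-b) z = z := by
  rcases le_or_gt b 1 with h1 | h1
  · have hc' : (3 * b - 1) * (3 - b) ≤ 4 * c ∨ (b ≤ 1 / 2 ∧ b - 1 / 2 < c) := by
      rcases hc with hc | hc | hc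
      · exact Or.inl hc
      · exact Or.inr hc
      · exfalso; linarith [hc.1]
    filter_upwards [ae_rec (h_cont c (-b)) μ hμ] with z hz
    exact rec_fixed_pos hb1 h1 hc' hz
  · have hbpos : 0 < b := by linarith
    have hb0 : b ≠ 0 := hbpos.ne'
    have hc' : (3 * (1 / b) - 1) * (3 - 1 / b) ≤ 4 * (c / b ^ 2) ∨
        (1 / b ≤ 1 / 2 ∧ 1 / b - 1 / 2 < c / b ^ 2) := by
      rcases hc with hc | hc | hc
      · left
        have e : 4 * (c / b ^ 2) = (4 * c) / b ^ 2 := by ring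
        rw [e, le_div_iff₀ (by positivity)]
        have : (3 * (1 / b) - 1) * (3 - 1 / b) * b ^ 2 = (3 * b - 1) * (3 - b) := by
          field_simp
        rw [this]; exact hc
      · exfalso; linarith [hc.1]
      · right
        refine ⟨?_, ?_⟩
        · rw [div_le_div_iff₀ hbpos (by norm_num)]; linarith [hc.1]
        · rw [lt_div_iff₀ (by positivity)]
          have : (1 / b - 1 / 2) * b ^ 2 = b - b ^ 2 / 2 := by
            field_simp
          rw [this]; exact hc.2
    have m3 := (S_cont b).measurable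
    have : IsProbabilityMeasure (μ.map (S b)) := Measure.isProbabilityMeasure_map m3.aemeasurable
    have h2' := ae_rec (h_cont (c / b ^ 2) (-(1 / b))) (μ.map (S b)) (map_S hb0 μ hμ)
    have h3 : ∀ᵐ z ∂(μ.map (S b)), h (c / b ^ 2) (-(1 / b)) z = z := by
      filter_upwards [h2'] with z hz
      refine rec_fixed_pos ?_ ?_ hc' hz
      · rw [div_le_div_iff₀ (by norm_num) hbpos]; linarith
      · rw [div_le_iff₀ hbpos]; linarith
    have h4 := ae_of_ae_map m3.aemeasurable h3
    filter_upwards [h4] with z hz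
    have e1 := S_conj (c := c) hb0 z
    have hB : -(1 / b) ≠ 0 := by
      rw [neg_ne_zero]; exact one_div_ne_zero hb0
    have e4 := (h_inj (c := c / b ^ 2) hB) (e1.trans hz.symm)
    exact S_inj hb0 e4

/-- passing from almost every point to the support -/
lemma support_sub {f g : ℝ × ℝ → ℝ × ℝ} (hf : Continuous f) (hg : Continuous g)
    (μ : Measure (ℝ × ℝ)) (hae : ∀ᵐ z ∂μ, f z = g z) : ∀ z ∈ μ.support, f z = g z := by
  intro z hz
  by_contra hne
  have hU : {w | f w ≠ g w} ∈ 𝓝 z := (isOpen_ne_fun hf hg).mem_nhds hne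
  have hpos := (Measure.mem_support_iff_forall z).mp hz _ hU
  have : μ {w | f w ≠ g w} = 0 := hae
  rw [this] at hpos
  exact lt_irrefl _ hpos

end Pool.Helper62.HN
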