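import Pool.Agent.Helper62.HN.D

set_option autoImplicit false
open Filter Topology Set

namespace Pool.Helper62.HN

/-- the algebraic core: no nontrivial pair of intervals for `κ ≤ 5/4` -/
lemma alg {κ A1 A2 B1 B2 : ℝ} (hκ : 1 < κ) (hκ2 : κ ≤ 5 / 4) (h0 : 0 ≤ A1) (hA : A1 ≤ A2)
    (hA2 : A2 ≤ κ ^ 2 - κ) (hB : B1 ≤ B2) (h1 : A2 ≤ B1 ^ 2 - κ) (h2 : B2 ^ 2 - κ ≤ A1)
    (h3 : B2 ≤ A2 ^ 2 - κ) (h4 : A1 ^ 2 - κ ≤ B1) : A1 = A2 ∧ B1 = B2 := by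
  have hκκ : κ ^ 2 - κ ≤ 5 / 16 := by nlinarith
  have hA2' : A2 ≤ 5 / 16 := by linarith
  have hA1' : A1 ≤ 5 / 16 := by linarith
  have hA1sq : A1 ^ 2 ≤ 25 / 256 := by nlinarith
  have hA2sq : A2 ^ 2 ≤ 25 / 256 := by nlinarith
  have hB2neg : B2 < 0 := by linarith
  have hB1neg : B1 < 0 := by linarith
  -- `A2 ≤ h A1`, `h A2 ≤ A1`
  have e1 : A2 ≤ (A1 ^ 2 - κ) ^ 2 - κ := by
    have m1 := mul_nonneg (sub_nonneg.2 h4) (show 0 ≤ -B1 - (A1 ^ 2 - κ) by linarith)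
    have m2 : (B1 - (A1 ^ 2 - κ)) * (-B1 - (A1 ^ 2 - κ)) = (A1 ^ 2 - κ) ^ 2 - B1 ^ 2 := by ring
    linarith
  have e2 : (A2 ^ 2 - κ) ^ 2 - κ ≤ A1 := by
    have m1 := mul_nonneg (sub_nonneg.2 h3) (show 0 ≤ -B2 - (A2 ^ 2 - κ) by linarith)
    have m2 : ((A2 ^ 2 - κ) - B2) * (-B2 - (A2 ^ 2 - κ)) = B2 ^ 2 - (A2 ^ 2 - κ) ^ 2 := by ring
    linarith
  obtain ⟨q, hq0, hq⟩ : ∃ q : ℝ, 0 < q ∧ q ^ 2 + q + 1 - κ = 0 := by
    refine ⟨(-1 + Real.sqrt (4 * κ - 3)) / 2, ?_, ?_⟩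
    · have : 1 < Real.sqrt (4 * κ - 3) := by
        rw [Real.lt_sqrt (by norm_num)]; linarith
      linarith
    · have := Real.sq_sqrt (show 0 ≤ 4 * κ - 3 by linarith)
      nlinarith
  have hq1 : q ≤ 1 / 4 := by nlinarith
  have hκq : κ = q ^ 2 + q + 1 := by linarith
  have hqsmall : 4 * (q ^ 2 + q) ≤ 1 := by linarith
  have hqq : q ^ 2 ≤ 1 / 16 := by
    have := mul_le_mul hq1 hq1 hq0.le (by norm_num : (0:ℝ) ≤ 1 / 4)
    calc q ^ 2 = q * q := sq q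
      _ ≤ 1 / 4 * (1 / 4) := this
      _ = 1 / 16 := by norm_num
  have h4q : 4 * q * (κ - q ^ 2) ≤ 1 := by
    have : 4 * q * (κ - q ^ 2) = 4 * (q ^ 2 + q) := by rw [hκq]; ring
    linarith
  -- step 1
  have s1 : A1 ≤ q := by
    by_contra hlt
    push Not at hlt
    have g1 : 0 < (A1 - q) * (A1 + q) * (2 * κ - q ^ 2 - A1 ^ 2) := by
      refine mul_pos (mul_pos (by linarith) (by linarith)) ?_
      linarith
    have g2 : (q ^ 2 - κ) ^ 2 - κ = q := by rw [hκq]; ring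
    have g3 : (q ^ 2 - κ) ^ 2 - (A1 ^ 2 - κ) ^ 2 =
      (A1 - q) * (A1 + q) * (2 * κ - q ^ 2 - A1 ^ 2) := by ring
    linarith
  -- step 2
  have s2 : A2 ≤ 2 * q - A1 := by
    have g2 : (q ^ 2 - κ) ^ 2 - κ = q := by rw [hκq]; ring
    have g3 : (A1 ^ 2 - κ) ^ 2 - κ - q = (q - A1) * ((q + A1) * (2 * κ - q ^ 2 - A1 ^ 2)) := by
      have : (A1 ^ 2 - κ) ^ 2 - κ - q = ((A1 ^ 2 - κ) ^ 2 - κ) - ((q ^ 2 - κ) ^ 2 - κ) := by
        rw [g2]
      rw [this]; ring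
    have g4 : (q + A1) * (2 * κ - q ^ 2 - A1 ^ 2) ≤ 1 := by
      have g5 : 4 * q * (κ - q ^ 2) - (q + A1) * (2 * κ - q ^ 2 - A1 ^ 2) =
          (q - A1) * (2 * κ - 3 * q ^ 2 - 2 * q * A1 - A1 ^ 2) := by ring
      have g6 : 0 ≤ (q - A1) * (2 * κ - 3 * q ^ 2 - 2 * q * A1 - A1 ^ 2) := by
        refine mul_nonneg (by linarith) ?_
        have r1 : q * A1 ≤ q * q := mul_le_mul_of_nonneg_left s1 hq0.le
        have r2 : q * q = q ^ 2 := (sq q).symm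
        linarith
      linarith
    have g8 : (q - A1) * ((q + A1) * (2 * κ - q ^ 2 - A1 ^ 2)) ≤ (q - A1) * 1 :=
      mul_le_mul_of_nonneg_left g4 (by linarith)
    linarith
  -- step 3
  have s3 : A1 = A2 := by
    by_contra hne
    have hlt : A1 < A2 := lt_of_le_of_ne hA hne
    have g1 : (A2 - A1) * 1 ≤ (A2 - A1) * ((A1 + A2) * (2 * κ - A1 ^ 2 - A2 ^ 2)) := by
      have : (A1 ^ 2 - κ) ^ 2 - (A2 ^ 2 - κ) ^ 2 =
        (A2 - A1) * ((A1 + A2) * (2 * κ - A1 ^ 2 - A2 ^ 2)) := by ring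
      rw [← this]; linarith
    have g2 : 1 ≤ (A1 + A2) * (2 * κ - A1 ^ 2 - A2 ^ 2) :=
      le_of_mul_le_mul_left g1 (by linarith)
    set s := A1 + A2 with hs
    have hs0 : 0 < s := by linarith
    have hs1 : s ≤ 2 * q := by linarith
    have g3 : 2 * κ - A1 ^ 2 - A2 ^ 2 < 2 * κ - s ^ 2 / 2 := by
      have r0 : 0 < (A2 - A1) ^ 2 := pow_pos (by linarith) 2
      have r1 : (A2 - A1) ^ 2 + s ^ 2 = 2 * A1 ^ 2 + 2 * A2 ^ 2 := by rw [hs]; ring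
      linarith
    have g4 : s * (2 * κ - A1 ^ 2 - A2 ^ 2) < s * (2 * κ - s ^ 2 / 2) :=
      mul_lt_mul_of_pos_left g3 hs0
    have g5 : s * (2 * κ - s ^ 2 / 2) ≤ 4 * q * (κ - q ^ 2) := by
      have : 4 * q * (κ - q ^ 2) - s * (2 * κ - s ^ 2 / 2) =
          (2 * q - s) * (2 * κ - (4 * q ^ 2 + 2 * q * s + s ^ 2) / 2) := by ring
      have g6 : 0 ≤ (2 * q - s) * (2 * κ - (4 * q ^ 2 + 2 * q * s + s ^ 2) / 2) := by
        refine mul_nonneg (by linarith) ?_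
        have r1 : q * s ≤ q * (2 * q) := mul_le_mul_of_nonneg_left hs1 hq0.le
        have r2 : q * (2 * q) = 2 * q ^ 2 := by ring
        have r3 : s ^ 2 ≤ (2 * q) ^ 2 := pow_le_pow_left₀ hs0.le hs1 2
        have r4 : (2 * q) ^ 2 = 4 * q ^ 2 := by ring
        linarith
      linarith
    linarith
  refine ⟨s3, le_antisymm hB ?_⟩
  rw [s3] at h4
  linarith

/-- surjectivity on a compact orbit closure of a recurrent point, general map -/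
lemma Orb_surj' {f : ℝ × ℝ → ℝ × ℝ} (hf : Continuous f) {z : ℝ × ℝ} (hz : Rec f z)
    (hc : IsCompact (Orb f z)) {w : ℝ × ℝ} (hw : w ∈ Orb f z) :
    ∃ u ∈ Orb f z, f u = w := by
  have hK : IsCompact (f '' Orb f z) := hc.image hf
  have hsub : (range fun n => f^[n] z) ⊆ f '' Orb f z := by
    have hz0 : z ∈ f '' Orb f z := by
      rw [← hK.isClosed.closure_eq, mem_closure_iff_nhds]
      intro U hU
      obtain ⟨n, hn1, hn2⟩ := ((hz U hU).and_eventually (eventually_ge_atTop 1)).exists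
      obtain ⟨k, rfl⟩ := Nat.exists_eq_add_of_le hn2
      refine ⟨_, hn1, f^[k] z, mem_Orb _ _ _, ?_⟩
      rw [← Function.iterate_succ_apply' f k z, add_comm]
    rintro _ ⟨n, rfl⟩
    cases n with
    | zero => simpa using hz0
    | succ n => exact ⟨f^[n] z, mem_Orb _ _ _, by simp only [Function.iterate_succ_apply']⟩
  have := closure_minimal hsub hK.isClosed hw
  obtain ⟨u, hu, e⟩ := this
  exact ⟨u, hu, e⟩

/-- the second iterate -/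
def g (c B : ℝ) (p : ℝ × ℝ) : ℝ × ℝ := h c B (h c B p)

lemma g_cont (c B : ℝ) : Continuous (g c B) := (h_cont c B).comp (h_cont c B)

lemma g_iter (c B : ℝ) (z : ℝ × ℝ) (n : ℕ) : (g c B)^[n] z = (h c B)^[2 * n] z := by
  have : g c B = (h c B)^[2] := by funext p; rfl
  rw [this, ← Function.iterate_mul]

lemma g_snd (c B : ℝ) (p : ℝ × ℝ) : (g c B p).2 = p.1 ^ 2 + c + B * p.2 := rfl

lemma g_fst (c B : ℝ) (p : ℝ × ℝ) : (g c B p).1 = (g c B p).2 ^ 2 + c + B * p.1 := rfl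

lemma Rec.of_g {c B : ℝ} {z : ℝ × ℝ} (hz : Rec (g c B) z) : Rec (h c B) z := by
  intro U hU
  rw [frequently_atTop]
  intro N
  obtain ⟨n, hn, hmem⟩ := (frequently_atTop.mp (hz U hU)) N
  exact ⟨2 * n, by omega, by rw [← g_iter]; exact hmem⟩

/-- the hull argument for `0 < κ - 1 ≤ 1/4` -/
lemma stepN0 {t κ : ℝ} (ht : 0 < t) (ht1 : t < 1) (hκ : 1 < κ) (hκ2 : κ ≤ 5 / 4)
    {z : ℝ × ℝ} (hz : Rec (g (-(κ * t ^ 2)) (1 - t)) z)
    (hbd : ∀ w ∈ Orb (g (-(κ * t ^ 2)) (1 - t)) z,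
      -(κ * t) ≤ w.1 ∧ w.1 ≤ (κ ^ 2 - κ) * t ∧ 0 ≤ w.2 ∧ w.2 ≤ (κ ^ 2 - κ) * t) :
    g (-(κ * t ^ 2)) (1 - t) z = z := by
  set c := -(κ * t ^ 2) with hc
  set B := 1 - t with hBt
  have hcont := g_cont c B
  have hcpt : IsCompact (Orb (g c B) z) := by
    have hsub : Orb (g c B) z ⊆
        Icc (-(κ * t)) ((κ ^ 2 - κ) * t) ×ˢ Icc 0 ((κ ^ 2 - κ) * t) := by
      intro w hw
      obtain ⟨h1, h2, h3, h4⟩ := hbd w hw
      exact ⟨⟨h1, h2⟩, ⟨h3, h4⟩⟩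
    exact (isCompact_Icc.prod isCompact_Icc).of_isClosed_subset isClosed_closure hsub
  have hne : (Orb (g c B) z).Nonempty := ⟨z, self_mem_Orb _ _⟩
  obtain ⟨pa, hpa, hpam⟩ := hcpt.exists_isMinOn hne continuous_snd.continuousOn
  obtain ⟨qa, hqa, hqam⟩ := hcpt.exists_isMaxOn hne continuous_snd.continuousOn
  obtain ⟨pb, hpb, hpbm⟩ := hcpt.exists_isMinOn hne continuous_fst.continuousOn
  obtain ⟨qb, hqb, hqbm⟩ := hcpt.exists_isMaxOn hne continuous_fst.continuousOn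
  have ba : ∀ w ∈ Orb (g c B) z, pa.2 ≤ w.2 ∧ w.2 ≤ qa.2 ∧ pb.1 ≤ w.1 ∧ w.1 ≤ qb.1 :=
    fun w hw => ⟨isMinOn_iff.mp hpam w hw, isMaxOn_iff.mp hqam w hw,
      isMinOn_iff.mp hpbm w hw, isMaxOn_iff.mp hqbm w hw⟩
  set a1 := pa.2
  set a2 := qa.2
  set b1 := pb.1
  set b2 := qb.1
  have ha1 : 0 ≤ a1 := (hbd _ hpa).2.2.1
  have ha12 : a1 ≤ a2 := (ba _ hpa).2.1
  have hb12 : b1 ≤ b2 := (ba _ hpb).2.2.2
  have ha2 : a2 ≤ (κ ^ 2 - κ) * t := (hbd _ hqa).2.2.2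
  have hκκ : κ ^ 2 - κ ≤ 5 / 16 := by nlinarith
  have ha2' : a2 ≤ 5 / 16 * t := by nlinarith
  have hB0 : 0 < B := by rw [hBt]; linarith
  -- bound for b2
  have i3 : t * b2 ≤ a2 ^ 2 + c := by
    obtain ⟨u, hu, e⟩ := Orb_surj' hcont hz hcpt hqb
    have e1 := g_fst c B u
    rw [e] at e1
    have h1 := (ba u hu).2.2.2
    have h2 := (ba qb hqb).2.1
    have h3 := (hbd qb hqb).2.2.1
    have h4 : qb.2 ^ 2 ≤ a2 ^ 2 := by nlinarith
    have h5 : B * u.1 ≤ B * b2 := mul_le_mul_of_nonneg_left h1 hB0.le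
    have e2 : b2 = qb.2 ^ 2 + c + B * u.1 := e1
    rw [hBt] at h5 e2
    nlinarith
  have i4 : a1 ^ 2 + c ≤ t * b1 := by
    obtain ⟨u, hu, e⟩ := Orb_surj' hcont hz hcpt hpb
    have e1 := g_fst c B u
    rw [e] at e1
    have h1 := (ba u hu).2.2.1
    have h2 := (ba pb hpb).1
    have h4 : a1 ^ 2 ≤ pb.2 ^ 2 := by nlinarith
    have h5 : B * b1 ≤ B * u.1 := mul_le_mul_of_nonneg_left h1 hB0.le
    have e2 : b1 = pb.2 ^ 2 + c + B * u.1 := e1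
    rw [hBt] at h5 e2
    nlinarith
  have hb2neg : b2 < 0 := by
    have h1 : a2 ^ 2 ≤ (5 / 16 * t) ^ 2 := by nlinarith
    have h2 : a2 ^ 2 + c < 0 := by rw [hc]; nlinarith [sq_nonneg t, mul_pos ht ht]
    by_contra hle
    push Not at hle
    have := mul_nonneg ht.le hle
    linarith
  have i1 : t * a2 ≤ b1 ^ 2 + c := by
    obtain ⟨u, hu, e⟩ := Orb_surj' hcont hz hcpt hqa
    have e1 := g_snd c B u
    rw [e] at e1
    have h1 := (ba u hu).2.1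
    have h2 := (ba u hu).2.2.1
    have h3 := (ba u hu).2.2.2
    have h4 : u.1 ^ 2 ≤ b1 ^ 2 := by nlinarith
    have h5 : B * u.2 ≤ B * a2 := mul_le_mul_of_nonneg_left h1 hB0.le
    have e2 : a2 = u.1 ^ 2 + c + B * u.2 := e1
    rw [hBt] at h5 e2
    nlinarith
  have i2 : b2 ^ 2 + c ≤ t * a1 := by
    obtain ⟨u, hu, e⟩ := Orb_surj' hcont hz hcpt hpa
    have e1 := g_snd c B u
    rw [e] at e1
    have h1 := (ba u hu).1
    have h2 := (ba u hu).2.2.1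
    have h3 := (ba u hu).2.2.2
    have h4 : b2 ^ 2 ≤ u.1 ^ 2 := by nlinarith
    have h5 : B * a1 ≤ B * u.2 := mul_le_mul_of_nonneg_left h1 hB0.le
    have e2 : a1 = u.1 ^ 2 + c + B * u.2 := e1
    rw [hBt] at h5 e2
    nlinarith
  -- scale
  have ht2 : 0 < t ^ 2 := by positivity
  have key := alg (κ := κ) (A1 := a1 / t) (A2 := a2 / t) (B1 := b1 / t) (B2 := b2 / t) hκ hκ2
    (by positivity) (div_le_div_of_nonneg_right ha12 ht.le)
    (by rw [div_le_iff₀ ht]; exact ha2) (div_le_div_of_nonneg_right hb12 ht.le)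
    (by
      have e : (b1 / t) ^ 2 - κ = (b1 ^ 2 + c) / t ^ 2 := by rw [hc]; field_simp; ring
      rw [e, div_le_div_iff₀ ht ht2]
      nlinarith)
    (by
      have e : (b2 / t) ^ 2 - κ = (b2 ^ 2 + c) / t ^ 2 := by rw [hc]; field_simp; ring
      rw [e, div_le_div_iff₀ ht2 ht]
      nlinarith)
    (by
      have e : (a2 / t) ^ 2 - κ = (a2 ^ 2 + c) / t ^ 2 := by rw [hc]; field_simp; ring
      rw [e, div_le_div_iff₀ ht ht2]
      nlinarith)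
    (by
      have e : (a1 / t) ^ 2 - κ = (a1 ^ 2 + c) / t ^ 2 := by rw [hc]; field_simp; ring
      rw [e, div_le_div_iff₀ ht2 ht]
      nlinarith)
  have hae : a1 = a2 := by
    have := key.1
    field_simp at this
    exact this
  have hbe : b1 = b2 := by
    have := key.2
    field_simp at this
    exact this
  have hz1 := ba z (self_mem_Orb _ _)
  have hz2 := ba (g c B z) (Orb_maps hcont z (self_mem_Orb _ _))
  refine Prod.ext ?_ ?_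
  · linarith
  · linarith

end Pool.Helper62.HN
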